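import Mathlib

set_option autoImplicit false

namespace Pool.Agent.H19.StackSort

/-- The largest letter of a word (`0` for the empty word). -/
def maxLetter (w : List ℕ) : ℕ := w.foldr max 0

/-- The part of the word `w` before the first occurrence of its largest letter. -/
def leftPart (w : List ℕ) : List ℕ := w.takeWhile (fun a => decide (a ≠ maxLetter w))

/-- The part of the word `w` after the first occurrence of its largest letter. -/
def rightPart (w : List ℕ) : List ℕ := (w.dropWhile (fun a => decide (a ≠ maxLetter w))).tail

lemma maxLetter_split (L R : List ℕ) (m : ℕ) (hL : ∀ x ∈ L, x < m) (hR : ∀ x ∈ R, x < m) :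
    maxLetter (L ++ m :: R) = m := by
  have h1 : ∀ w : List ℕ, (∀ x ∈ w, x ≤ m) → w.foldr max 0 ≤ m := by
    intro w
    induction w with
    | nil => simp
    | cons a w ih =>
      intro h
      simp only [List.foldr_cons]
      exact max_le (h a (by simp)) (ih (fun x hx => h x (by simp [hx])))
  have h2 : ∀ w : List ℕ, ∀ x ∈ w, x ≤ w.foldr max 0 := by
    intro w
    induction w with
    | nil => simp
    | cons a w ih =>
      intro x hx
      simp only [List.foldr_cons]
      rcases List.mem_cons.1 hx with h | h
      · subst h; exact le_max_left _ _
      · exact (ih x h).trans (le_max_right _ _)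
  apply le_antisymm
  · apply h1
    intro x hx
    rcases List.mem_append.1 hx with h | h
    · exact (hL x h).le
    · rcases List.mem_cons.1 h with h | h
      · exact h.le
      · exact (hR x h).le
  · exact h2 _ m (by simp)

lemma leftPart_split (L R : List ℕ) (m : ℕ) (hL : ∀ x ∈ L, x < m) (hR : ∀ x ∈ R, x < m) :
    leftPart (L ++ m :: R) = L := by
  unfold leftPart
  rw [maxLetter_split L R m hL hR, List.takeWhile_append_of_pos]
  · simp
  · intro x hx
    simpa using (hL x hx).ne

lemma rightPart_split (L R : List ℕ) (m : ℕ) (hL : ∀ x ∈ L, x < m) (hR : ∀ x ∈ R, x < m) :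
    rightPart (L ++ m :: R) = R := by
  unfold rightPart
  rw [maxLetter_split L R m hL hR, List.dropWhile_append_of_pos]
  · simp
  · intro x hx
    simpa using (hL x hx).ne

lemma maxLetter_mem (w : List ℕ) (hw : w ≠ []) : maxLetter w ∈ w := by
  unfold maxLetter
  induction w with
  | nil => exact absurd rfl hw
  | cons a w ih =>
    simp only [List.foldr_cons]
    by_cases h : w = []
    · subst h; simp
    · rcases le_total a (w.foldr max 0) with h1 | h1
      · rw [max_eq_right h1]
        exact List.mem_cons_of_mem _ (ih h)
      · rw [max_eq_left h1]
        simp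

lemma le_maxLetter (w : List ℕ) : ∀ x ∈ w, x ≤ maxLetter w := by
  unfold maxLetter
  induction w with
  | nil => simp
  | cons a w ih =>
    intro x hx
    simp only [List.foldr_cons]
    rcases List.mem_cons.1 hx with h | h
    · subst h; exact le_max_left _ _
    · exact (ih x h).trans (le_max_right _ _)

lemma split_at_max (w : List ℕ) (hw : w ≠ []) :
    w = leftPart w ++ maxLetter w :: rightPart w := by
  have h := List.takeWhile_append_dropWhile (p := fun a => decide (a ≠ maxLetter w)) (l := w)
  have hne : w.dropWhile (fun a => decide (a ≠ maxLetter w)) ≠ [] := by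
    intro h0
    rw [List.dropWhile_eq_nil_iff] at h0
    have := h0 _ (maxLetter_mem w hw)
    simp at this
  have hhead : (w.dropWhile (fun a => decide (a ≠ maxLetter w))).head hne = maxLetter w := by
    have := List.head_dropWhile_not (fun a => decide (a ≠ maxLetter w)) hne
    simpa using this
  have h3 : w.dropWhile (fun a => decide (a ≠ maxLetter w))
      = maxLetter w :: (w.dropWhile (fun a => decide (a ≠ maxLetter w))).tail := by
    conv_lhs => rw [← List.cons_head_tail hne]
    rw [hhead]
  calc w = w.takeWhile (fun a => decide (a ≠ maxLetter w))
        ++ w.dropWhile (fun a => decide (a ≠ maxLetter w)) := h.symm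
    _ = _ := by rw [h3]; rfl

lemma leftPart_length (w : List ℕ) (hw : w ≠ []) : (leftPart w).length < w.length := by
  conv_rhs => rw [split_at_max w hw]
  simp only [List.length_append, List.length_cons]
  omega

lemma rightPart_length (w : List ℕ) (hw : w ≠ []) : (rightPart w).length < w.length := by
  conv_rhs => rw [split_at_max w hw]
  simp only [List.length_append, List.length_cons]
  omega

/-- The stack sort operator: `S` of the empty word is empty, and
`S(L m R) = S(L) S(R) m` where `m` is the largest letter. -/
def stackSort (w : List ℕ) : List ℕ :=
  if h : w = [] then []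
  else stackSort (leftPart w) ++ stackSort (rightPart w) ++ [maxLetter w]
termination_by w.length
decreasing_by
  · exact leftPart_length w h
  · exact rightPart_length w h

/-- The revstack sort operator: `T` of the empty word is empty, and
`T(L m R) = T(R) T(L) m` where `m` is the largest letter. -/
def revstackSort (w : List ℕ) : List ℕ :=
  if h : w = [] then []
  else revstackSort (rightPart w) ++ revstackSort (leftPart w) ++ [maxLetter w]
termination_by w.length
decreasing_by
  · exact rightPart_length w h
  · exact leftPart_length w h

lemma stackSort_nil : stackSort [] = [] := by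
  rw [stackSort]; simp

lemma revstackSort_nil : revstackSort [] = [] := by
  rw [revstackSort]; simp

lemma stackSort_split (L R : List ℕ) (m : ℕ) (hL : ∀ x ∈ L, x < m) (hR : ∀ x ∈ R, x < m) :
    stackSort (L ++ m :: R) = stackSort L ++ stackSort R ++ [m] := by
  rw [stackSort]
  rw [dif_neg (by simp), leftPart_split L R m hL hR, rightPart_split L R m hL hR,
    maxLetter_split L R m hL hR]

lemma revstackSort_split (L R : List ℕ) (m : ℕ) (hL : ∀ x ∈ L, x < m) (hR : ∀ x ∈ R, x < m) :
    revstackSort (L ++ m :: R) = revstackSort R ++ revstackSort L ++ [m] := by
  rw [revstackSort]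
  rw [dif_neg (by simp), leftPart_split L R m hL hR, rightPart_split L R m hL hR,
    maxLetter_split L R m hL hR]

/-- Induction on words with distinct letters, splitting at the largest letter. -/
lemma nodup_induction (P : List ℕ → Prop) (h0 : P [])
    (h1 : ∀ (L R : List ℕ) (m : ℕ), (L ++ m :: R).Nodup → (∀ x ∈ L, x < m) → (∀ x ∈ R, x < m) →
      P L → P R → P (L ++ m :: R)) :
    ∀ w : List ℕ, w.Nodup → P w := by
  intro w
  induction hn : w.length using Nat.strong_induction_on generalizing w with
  | _ n ih =>
    intro hw
    by_cases hwn : w = []
    · subst hwn; exact h0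
    · have hs := split_at_max w hwn
      have hnd : (leftPart w ++ maxLetter w :: rightPart w).Nodup := by rw [← hs]; exact hw
      have hL : ∀ x ∈ leftPart w, x < maxLetter w := by
        intro x hx
        have hle : x ≤ maxLetter w := le_maxLetter w x (by rw [hs]; simp [hx])
        rcases hle.lt_or_eq with h | h
        · exact h
        · exfalso
          rw [List.nodup_append] at hnd
          exact hnd.2.2 x hx (maxLetter w) (by simp) h
      have hR : ∀ x ∈ rightPart w, x < maxLetter w := by
        intro x hx
        have hle : x ≤ maxLetter w := le_maxLetter w x (by rw [hs]; simp [hx])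
        rcases hle.lt_or_eq with h | h
        · exact h
        · exfalso
          rw [List.nodup_append] at hnd
          have := (List.nodup_cons.1 hnd.2.1).1
          rw [h] at hx
          exact this hx
      have hndL : (leftPart w).Nodup := (List.nodup_append.1 hnd).1
      have hndR : (rightPart w).Nodup := (List.nodup_cons.1 (List.nodup_append.1 hnd).2.1).2
      rw [hs]
      apply h1 _ _ _ hnd hL hR
      · exact ih _ (by rw [← hn]; exact leftPart_length w hwn) _ rfl hndL
      · exact ih _ (by rw [← hn]; exact rightPart_length w hwn) _ rfl hndR

lemma stackSort_perm : ∀ w : List ℕ, w.Nodup → (stackSort w).Perm w := by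
  apply nodup_induction
  · rw [stackSort_nil]
  · intro L R m _ hL hR ihL ihR
    rw [stackSort_split L R m hL hR]
    calc (stackSort L ++ stackSort R ++ [m]).Perm (L ++ R ++ [m]) :=
          (ihL.append ihR).append (List.Perm.refl _)
      _ |>.Perm (L ++ m :: R) := by
          rw [List.append_assoc]
          exact (List.Perm.append_left L (List.perm_append_singleton m R))

lemma revstackSort_perm : ∀ w : List ℕ, w.Nodup → (revstackSort w).Perm w := by
  apply nodup_induction
  · rw [revstackSort_nil]
  · intro L R m _ hL hR ihL ihR
    rw [revstackSort_split L R m hL hR]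
    calc (revstackSort R ++ revstackSort L ++ [m]).Perm (R ++ L ++ [m]) :=
          (ihR.append ihL).append (List.Perm.refl _)
      _ |>.Perm (L ++ R ++ [m]) := List.Perm.append_right _ List.perm_append_comm
      _ |>.Perm (L ++ m :: R) := by
          rw [List.append_assoc]
          exact (List.Perm.append_left L (List.perm_append_singleton m R))

end Pool.Agent.H19.StackSort
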