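import Mathlib
import Pool.Agent.H19.StackSort.Basic

set_option autoImplicit false

namespace Pool.Agent.H19.StackSort

/-- If all letters of `X` are smaller than `M`, then `S(X M Y) = S(X) S(M Y)`. -/
lemma stackSort_lrmax (k : ℕ) : ∀ (X Y : List ℕ) (M : ℕ), Y.length = k → (X ++ M :: Y).Nodup →
    (∀ x ∈ X, x < M) → stackSort (X ++ M :: Y) = stackSort X ++ stackSort (M :: Y) := by
  induction k using Nat.strong_induction_on with
  | _ k ih =>
    intro X Y M hk hnd hX
    have hs := split_at_max (M :: Y) (by simp)
    have hndMY : (M :: Y).Nodup := (List.nodup_append.1 hnd).2.1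
    have hle := le_maxLetter (M :: Y)
    obtain ⟨m, hm⟩ : ∃ m, maxLetter (M :: Y) = m := ⟨_, rfl⟩
    rw [hm] at hs hle
    have hMm : M ≤ m := hle M (by simp)
    rcases hL : leftPart (M :: Y) with _ | ⟨a, L'⟩
    · -- M is the maximum
      rw [hL, List.nil_append, List.cons.injEq] at hs
      obtain ⟨h1, h2⟩ := hs
      have hY : ∀ y ∈ Y, y < M := by
        intro y hy
        have h3 : y ≤ m := hle y (by simp [hy])
        rw [← h1] at h3
        rcases h3.lt_or_eq with h | h
        · exact h
        · exfalso
          rw [h] at hy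
          exact (List.nodup_cons.1 hndMY).1 hy
      rw [stackSort_split X Y M hX hY]
      have := stackSort_split [] Y M (by simp) hY
      rw [List.nil_append] at this
      rw [this, stackSort_nil]
      simp
    · rw [hL, List.cons_append, List.cons.injEq] at hs
      obtain ⟨h1, h2⟩ := hs
      subst h1
      obtain ⟨R, hR⟩ : ∃ R, rightPart (M :: Y) = R := ⟨_, rfl⟩
      rw [hR] at h2
      have hmem : m ∈ Y := by rw [h2]; simp
      have hlt : ∀ y ∈ M :: Y, y ≠ m → y < m := fun y hy hne => lt_of_le_of_ne (hle y hy) hne
      have hndY : Y.Nodup := (List.nodup_cons.1 hndMY).2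
      rw [h2, List.nodup_append] at hndY
      have hMm' : M < m := by
        apply hlt M (by simp)
        intro h
        rw [← h] at hmem
        exact (List.nodup_cons.1 hndMY).1 hmem
      have hL1 : ∀ x ∈ L', x < m := by
        intro x hx
        apply hlt x (by rw [h2]; simp [hx])
        intro h
        exact hndY.2.2 x hx m (by simp) h
      have hR1 : ∀ x ∈ R, x < m := by
        intro x hx
        apply hlt x (by rw [h2]; simp [hx])
        intro h
        rw [h] at hx
        exact (List.nodup_cons.1 hndY.2.1).1 hx
      have e1 : X ++ M :: Y = (X ++ M :: L') ++ m :: R := by rw [h2]; simp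
      have e2 : M :: Y = (M :: L') ++ m :: R := by rw [h2]; simp
      have hXm : ∀ x ∈ X ++ M :: L', x < m := by
        intro x hx
        rcases List.mem_append.1 hx with h | h
        · exact (hX x h).trans hMm'
        · rcases List.mem_cons.1 h with h | h
          · rw [h]; exact hMm'
          · exact hL1 x h
      have hMLm : ∀ x ∈ M :: L', x < m := fun x hx => hXm x (by simp at hx ⊢; tauto)
      rw [e1, stackSort_split _ _ _ hXm hR1, e2, stackSort_split _ _ _ hMLm hR1]
      have hnd' : (X ++ M :: L').Nodup := by
        rw [e1] at hnd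
        exact (List.nodup_append.1 hnd).1
      have hlen : L'.length < k := by
        rw [← hk, h2]
        simp
      rw [ih L'.length hlen X L' M rfl hnd' hX]
      simp [List.append_assoc]

/-- The word has a left-to-right maximum at position `l`, and the letter `1` comes later. -/
def LateMax (l : ℕ) (w : List ℕ) : Prop :=
  ∃ (X : List ℕ) (M : ℕ) (Y : List ℕ), w = X ++ M :: Y ∧ X.length = l ∧ (∀ x ∈ X, x < M) ∧ 1 ∈ Y

lemma lateMax_step (l : ℕ) (w : List ℕ) (hw : w.Nodup) (h : LateMax (l + 1) w) :
    LateMax l (stackSort w) := by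
  obtain ⟨X, M, Y, rfl, hl, hX, h1⟩ := h
  have hndX : X.Nodup := (List.nodup_append.1 hw).1
  have hXne : X ≠ [] := by rintro rfl; simp at hl
  rw [stackSort_lrmax Y.length X Y M rfl hw hX]
  have hs := split_at_max X hXne
  have hndX' : (leftPart X ++ maxLetter X :: rightPart X).Nodup := by rw [← hs]; exact hndX
  have hL : ∀ x ∈ leftPart X, x < maxLetter X := by
    intro x hx
    have hle : x ≤ maxLetter X := le_maxLetter X x (by rw [hs]; simp [hx])
    refine lt_of_le_of_ne hle ?_
    intro h
    exact (List.nodup_append.1 hndX').2.2 x hx (maxLetter X) (by simp) h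
  have hR : ∀ x ∈ rightPart X, x < maxLetter X := by
    intro x hx
    have hle : x ≤ maxLetter X := le_maxLetter X x (by rw [hs]; simp [hx])
    refine lt_of_le_of_ne hle ?_
    intro h
    have := (List.nodup_cons.1 (List.nodup_append.1 hndX').2.1).1
    rw [h] at hx
    exact this hx
  have hndL : (leftPart X).Nodup := (List.nodup_append.1 hndX').1
  have hndR : (rightPart X).Nodup := (List.nodup_cons.1 (List.nodup_append.1 hndX').2.1).2
  have hSX : stackSort X = stackSort (leftPart X) ++ stackSort (rightPart X) ++ [maxLetter X] := by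
    conv_lhs => rw [hs]
    rw [stackSort_split _ _ _ hL hR]
  have hlen : X.length = (leftPart X).length + ((rightPart X).length + 1) := by
    conv_lhs => rw [hs]
    simp
  have pL := stackSort_perm _ hndL
  have pR := stackSort_perm _ hndR
  refine ⟨stackSort (leftPart X) ++ stackSort (rightPart X), maxLetter X, stackSort (M :: Y), ?_,
    ?_, ?_, ?_⟩
  · rw [hSX]; simp [List.append_assoc]
  · rw [List.length_append, pL.length_eq, pR.length_eq]
    omega
  · intro x hx
    rcases List.mem_append.1 hx with h | h
    · exact hL x (pL.mem_iff.1 h)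
    · exact hR x (pR.mem_iff.1 h)
  · have hnd2 : (M :: Y).Nodup := (List.nodup_append.1 hw).2.1
    exact (stackSort_perm _ hnd2).mem_iff.2 (by simp [h1])

lemma lateMax_iter (t : ℕ) : ∀ (l : ℕ) (w : List ℕ), w.Nodup → LateMax (l + t) w →
    LateMax l (stackSort^[t] w) ∧ (stackSort^[t] w).Nodup := by
  induction t with
  | zero => intro l w hw h; exact ⟨h, hw⟩
  | succ t ih =>
    intro l w hw h
    rw [Function.iterate_succ_apply]
    exact ih l (stackSort w) ((stackSort_perm w hw).nodup_iff.2 hw)
      (lateMax_step (l + t) w hw (by rw [show l + t + 1 = l + (t + 1) by ring]; exact h))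

lemma lateMax_ne (l n : ℕ) (w : List ℕ) (hw : w.Nodup) (h : LateMax l w) :
    w ≠ List.range' 1 n := by
  obtain ⟨X, M, Y, rfl, _, _, h1⟩ := h
  intro he
  rcases n with _ | n
  · simp at he
  · rw [List.range'_succ] at he
    rcases X with _ | ⟨x, X⟩
    · simp only [List.nil_append, List.cons.injEq] at he
      rw [he.1, List.nil_append] at hw
      exact (List.nodup_cons.1 hw).1 h1
    · simp only [List.cons_append, List.cons.injEq] at he
      rw [he.1, List.cons_append] at hw
      exact (List.nodup_cons.1 hw).1 (by simp [h1])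

/-- A word with a left-to-right maximum at position `l ≥ t` before the letter `1` is not sorted
by `t` applications of `S`. -/
lemma unsorted_of_lateMax (n t l : ℕ) (hl : t ≤ l) (w : List ℕ) (hw : w.Nodup)
    (h : LateMax l w) : stackSort^[t] w ≠ List.range' 1 n := by
  have h' : LateMax ((l - t) + t) w := by rwa [Nat.sub_add_cancel hl]
  obtain ⟨h1, h2⟩ := lateMax_iter t (l - t) w hw h'
  exact lateMax_ne _ n _ h2 h1

end Pool.Agent.H19.StackSort
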