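import Mathlib
import Pool.Agent.H19.StackSort.Basic

set_option autoImplicit false

namespace Pool.Agent.H19.StackSort

/-- Positions in `L ++ m :: R`. -/
lemma idx_split (L R : List ℕ) (m a : ℕ) (hnd : (L ++ m :: R).Nodup) (ha : a ∈ L ++ m :: R) :
    (a ∈ L ∧ (L ++ m :: R).idxOf a = L.idxOf a ∧ L.idxOf a < L.length) ∨
    (a = m ∧ (L ++ m :: R).idxOf a = L.length) ∨
    (a ∈ R ∧ (L ++ m :: R).idxOf a = L.length + 1 + R.idxOf a ∧ R.idxOf a < R.length) := by
  rw [List.nodup_append] at hnd
  obtain ⟨_, hnd2, hdisj⟩ := hnd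
  rw [List.nodup_cons] at hnd2
  rcases List.mem_append.1 ha with h | h
  · left
    exact ⟨h, List.idxOf_append_of_mem h, List.idxOf_lt_length_iff.2 h⟩
  · right
    have hnL : a ∉ L := fun h' => hdisj a h' a h rfl
    rcases List.mem_cons.1 h with h | h
    · left
      subst h
      refine ⟨rfl, ?_⟩
      rw [List.idxOf_append_of_notMem hnL]
      simp
    · right
      have hne : m ≠ a := by rintro rfl; exact hnd2.1 h
      refine ⟨h, ?_, List.idxOf_lt_length_iff.2 h⟩
      rw [List.idxOf_append_of_notMem hnL, List.idxOf_cons_ne _ hne]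
      omega

/-- Positions in `R' ++ L' ++ [m]`. -/
lemma idx_rev (L' R' : List ℕ) (m a : ℕ) (hnd : (R' ++ L' ++ [m]).Nodup) :
    (a ∈ R' → (R' ++ L' ++ [m]).idxOf a = R'.idxOf a ∧ R'.idxOf a < R'.length) ∧
    (a ∈ L' → (R' ++ L' ++ [m]).idxOf a = R'.length + L'.idxOf a ∧ L'.idxOf a < L'.length) ∧
    (a = m → (R' ++ L' ++ [m]).idxOf a = R'.length + L'.length) := by
  rw [List.nodup_append] at hnd
  obtain ⟨h1, _, h2⟩ := hnd
  rw [List.nodup_append] at h1
  obtain ⟨_, _, h3⟩ := h1
  refine ⟨fun h => ⟨?_, List.idxOf_lt_length_iff.2 h⟩, fun h => ⟨?_, List.idxOf_lt_length_iff.2 h⟩,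
    fun h => ?_⟩
  · rw [List.idxOf_append_of_mem (by simp [h]), List.idxOf_append_of_mem h]
  · have : a ∉ R' := fun h' => h3 a h' a h rfl
    rw [List.idxOf_append_of_mem (by simp [h]), List.idxOf_append_of_notMem this]
  · have : a ∉ R' ++ L' := fun h' => h2 a h' a (by simp [h]) rfl
    rw [List.idxOf_append_of_notMem this, List.length_append, h]
    simp

/-- In the word `T(w)`, the larger letter `y` comes before the smaller letter `x` exactly when
`w` has a pattern `x .. c .. y` with `c > y`. -/
lemma revstack_before : ∀ w : List ℕ, w.Nodup → ∀ x y, x ∈ w → y ∈ w → x < y →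
    ((revstackSort w).idxOf y < (revstackSort w).idxOf x ↔
      ∃ c ∈ w, y < c ∧ w.idxOf x < w.idxOf c ∧ w.idxOf c < w.idxOf y) := by
  apply nodup_induction
  · intro x y hx; simp at hx
  · intro L R m hnd hL hR ihL ihR x y hx hy hxy
    rw [revstackSort_split L R m hL hR]
    have hndL : L.Nodup := (List.nodup_append.1 hnd).1
    have hndR : R.Nodup := (List.nodup_cons.1 (List.nodup_append.1 hnd).2.1).2
    have pL := revstackSort_perm L hndL
    have pR := revstackSort_perm R hndR
    have hnd' : (revstackSort R ++ revstackSort L ++ [m]).Nodup := by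
      rw [← revstackSort_split L R m hL hR]
      exact ((revstackSort_perm _ hnd).nodup_iff).2 hnd
    have ix := idx_rev (revstackSort L) (revstackSort R) m x hnd'
    have iy := idx_rev (revstackSort L) (revstackSort R) m y hnd'
    have lL : (revstackSort L).length = L.length := pL.length_eq
    have lR : (revstackSort R).length = R.length := pR.length_eq
    have mL : ∀ a, a ∈ revstackSort L ↔ a ∈ L := fun a => pL.mem_iff
    have mR : ∀ a, a ∈ revstackSort R ↔ a ∈ R := fun a => pR.mem_iff
    simp only [mL, mR, lL, lR] at ix iy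
    have hcle : ∀ c ∈ L ++ m :: R, c ≤ m := by
      intro c hc
      rcases List.mem_append.1 hc with h | h
      · exact (hL c h).le
      · rcases List.mem_cons.1 h with h | h
        · exact h.le
        · exact (hR c h).le
    rcases idx_split L R m x hnd hx with ⟨hx1, hx2, hx3⟩ | ⟨hx1, hx2⟩ | ⟨hx1, hx2, hx3⟩
    · rcases idx_split L R m y hnd hy with ⟨hy1, hy2, hy3⟩ | ⟨hy1, hy2⟩ | ⟨hy1, hy2, hy3⟩
      · -- both in L
        have hi := ihL x y hx1 hy1 hxy
        rw [(ix.2.1 hx1).1, (iy.2.1 hy1).1, add_lt_add_iff_left, hi]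
        constructor
        · rintro ⟨c, hc, h1, h2, h3⟩
          refine ⟨c, by simp [hc], h1, ?_⟩
          rw [hx2, hy2, List.idxOf_append_of_mem hc]
          exact ⟨h2, h3⟩
        · rintro ⟨c, hc, h1, h2, h3⟩
          rcases idx_split L R m c hnd hc with ⟨hc1, hc2, hc3⟩ | ⟨hc1, hc2⟩ | ⟨hc1, hc2, hc3⟩
          · exact ⟨c, hc1, h1, by omega, by omega⟩
          · omega
          · omega
      · -- y = m
        subst hy1
        constructor
        · intro h
          have := (iy.2.2 rfl)
          have := (ix.2.1 hx1)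
          omega
        · rintro ⟨c, hc, h1, _⟩
          have := hcle c hc
          omega
      · -- x in L, y in R
        constructor
        · intro _
          refine ⟨m, by simp, hR y hy1, ?_⟩
          rcases idx_split L R m m hnd (by simp) with ⟨h1, _⟩ | ⟨_, h1⟩ | ⟨h1, _⟩
          · exact absurd (hL m h1) (lt_irrefl _)
          · rw [h1]; omega
          · exact absurd (hR m h1) (lt_irrefl _)
        · intro _
          have h1 := (iy.1 hy1)
          have h2 := (ix.2.1 hx1)
          omega
    · exfalso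
      have := hcle y hy
      omega
    · rcases idx_split L R m y hnd hy with ⟨hy1, hy2, hy3⟩ | ⟨hy1, hy2⟩ | ⟨hy1, hy2, hy3⟩
      · -- x in R, y in L
        constructor
        · intro h
          have h1 := (iy.2.1 hy1)
          have h2 := (ix.1 hx1)
          omega
        · rintro ⟨c, hc, h1, h2, h3⟩
          omega
      · subst hy1
        constructor
        · intro h
          have h1 := (iy.2.2 rfl)
          have h2 := (ix.1 hx1)
          omega
        · rintro ⟨c, hc, h1, _⟩
          have := hcle c hc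
          omega
      · -- both in R
        have hi := ihR x y hx1 hy1 hxy
        rw [(ix.1 hx1).1, (iy.1 hy1).1, hi]
        constructor
        · rintro ⟨c, hc, h1, h2, h3⟩
          refine ⟨c, by simp [hc], h1, ?_⟩
          rcases idx_split L R m c hnd (by simp [hc]) with ⟨hc1, hc2, hc3⟩ | ⟨hc1, hc2⟩ | ⟨hc1, hc2, hc3⟩
          · exfalso
            exact (List.nodup_append.1 hnd).2.2 c hc1 c (by simp [hc]) rfl
          · exfalso
            exact absurd (hR c hc) (by omega)
          · omega
        · rintro ⟨c, hc, h1, h2, h3⟩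
          rcases idx_split L R m c hnd hc with ⟨hc1, hc2, hc3⟩ | ⟨hc1, hc2⟩ | ⟨hc1, hc2, hc3⟩
          · omega
          · omega
          · exact ⟨c, hc1, h1, by omega, by omega⟩

/-- The previous greater letter of `y`: if some `x < y` comes after `y` in `T(w)`, there is a
letter `z > y` before `y` in `w` such that the letters `x < y` after `y` in `T(w)` are exactly
the letters `x < y` before `z` in `w`. -/
lemma exists_prev_greater (w : List ℕ) (hw : w.Nodup) (y x₀ : ℕ) (hy : y ∈ w) (hx₀ : x₀ ∈ w)
    (hlt : x₀ < y) (hinv : (revstackSort w).idxOf y < (revstackSort w).idxOf x₀) :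
    ∃ z ∈ w, y < z ∧ w.idxOf z < w.idxOf y ∧ ∀ x ∈ w, x < y →
      ((revstackSort w).idxOf y < (revstackSort w).idxOf x ↔ w.idxOf x < w.idxOf z) := by
  classical
  have hne : ((w.toFinset).filter (fun c => y < c ∧ w.idxOf c < w.idxOf y)).Nonempty := by
    obtain ⟨c, hc, h1, _, h3⟩ := (revstack_before w hw x₀ y hx₀ hy hlt).1 hinv
    exact ⟨c, by simp [hc, h1, h3]⟩
  obtain ⟨z, hz, hmax⟩ := Finset.exists_max_image _ (fun c => w.idxOf c) hne
  simp only [Finset.mem_filter, List.mem_toFinset] at hz hmax
  refine ⟨z, hz.1, hz.2.1, hz.2.2, ?_⟩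
  intro x hx hxy
  rw [revstack_before w hw x y hx hy hxy]
  constructor
  · rintro ⟨c, hc, h1, h2, h3⟩
    exact lt_of_lt_of_le h2 (hmax c ⟨hc, h1, h3⟩)
  · intro h
    exact ⟨z, hz.1, hz.2.1, h, hz.2.2⟩

/-- The alternating word `b, !b, b, ...` of length `k`. -/
def alt : Bool → ℕ → List Bool
  | _, 0 => []
  | b, k + 1 => b :: alt (!b) k

/-- `true` when `v` comes after `z` in `w`. -/
def sideR (w : List ℕ) (z v : ℕ) : Bool := decide (w.idxOf z < w.idxOf v)

/-- A strictly decreasing list of `k` letters smaller than `y`, alternately after and before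
`y`, the first one after `y`. -/
def Zig (w : List ℕ) (y k : ℕ) : Prop :=
  ∃ vs : List ℕ, (y :: vs).Pairwise (· > ·) ∧ (∀ v ∈ vs, v ∈ w) ∧ vs.map (sideR w y) = alt true k

lemma alt_not (k : ℕ) : ∀ b, (alt b k).map (fun c => !c) = alt (!b) k := by
  induction k with
  | zero => intro b; rfl
  | succ k ih => intro b; simp [alt, ih]

lemma zig_step (w : List ℕ) (hw : w.Nodup) (y k : ℕ) (hy : y ∈ w) (hk : 1 ≤ k)
    (h : Zig (revstackSort w) y k) : ∃ z ∈ w, Zig w z (k + 1) := by
  obtain ⟨vs, hs, hmem, hside⟩ := h
  have hperm := revstackSort_perm w hw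
  have hmem' : ∀ v ∈ vs, v ∈ w := fun v hv => hperm.mem_iff.1 (hmem v hv)
  rw [List.pairwise_cons] at hs
  obtain ⟨hy1, hvs⟩ := hs
  obtain ⟨k, rfl⟩ : ∃ k', k = k' + 1 := ⟨k - 1, by omega⟩
  match vs, hvs, hside, hy1, hmem' with
  | [], _, hside, _, _ => simp [alt] at hside
  | v :: vs', hvs, hside, hy1, hmem' =>
    have hv : sideR (revstackSort w) y v = true := by
      simp only [List.map_cons, alt, List.cons.injEq] at hside
      exact hside.1
    obtain ⟨z, hz, hyz, hzy, hiff⟩ := exists_prev_greater w hw y v hy (hmem' v (by simp))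
      (hy1 v (by simp)) (by simpa [sideR] using hv)
    refine ⟨z, hz, y :: v :: vs', ?_, ?_, ?_⟩
    · rw [List.pairwise_cons]
      refine ⟨?_, ?_⟩
      · intro a ha
        rcases List.mem_cons.1 ha with h | h
        · rw [h]; exact hyz
        · exact lt_trans (hy1 a h) hyz
      · rw [List.pairwise_cons]
        exact ⟨hy1, hvs⟩
    · intro a ha
      rcases List.mem_cons.1 ha with h | h
      · rw [h]; exact hy
      · exact hmem' a h
    · have h1 : (v :: vs').map (sideR w z) = ((v :: vs').map (sideR (revstackSort w) y)).map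
          (fun c => !c) := by
        rw [List.map_map]
        apply List.map_congr_left
        intro a ha
        simp only [Function.comp, sideR]
        have h2 := hiff a (hmem' a ha) (hy1 a ha)
        have hne : w.idxOf a ≠ w.idxOf z := by
          intro he
          have hza : a = z := (List.idxOf_inj (hmem' a ha)).1 he
          have := hy1 a ha
          omega
        by_cases h3 : (revstackSort w).idxOf y < (revstackSort w).idxOf a
        · have h4 := h2.1 h3
          simp [h3]
          omega
        · have h4 : ¬ w.idxOf a < w.idxOf z := fun h => h3 (h2.2 h)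
          simp [h3]
          omega
      rw [List.map_cons, h1, hside, alt_not]
      have h5 : sideR w z y = true := by simpa [sideR] using hzy
      rw [h5]
      rfl

lemma zig_iter (t : ℕ) : ∀ (w : List ℕ), w.Nodup → ∀ y k, y ∈ w → 1 ≤ k →
    Zig (revstackSort^[t] w) y k → ∃ z ∈ w, Zig w z (k + t) := by
  induction t with
  | zero =>
    intro w _ y k hy _ h
    exact ⟨y, hy, h⟩
  | succ t ih =>
    intro w hw y k hy hk h
    rw [Function.iterate_succ_apply] at h
    have hp := revstackSort_perm w hw
    obtain ⟨z, hz, hzig⟩ := ih (revstackSort w) (hp.nodup_iff.2 hw) y k (hp.mem_iff.2 hy) hk h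
    obtain ⟨z', hz', hzig'⟩ := zig_step w hw z (k + t) (hp.mem_iff.1 hz) (by omega) hzig
    exact ⟨z', hz', by rw [show k + (t + 1) = k + t + 1 by ring]; exact hzig'⟩

lemma revstackSort_iter_perm (t : ℕ) : ∀ w : List ℕ, w.Nodup → (revstackSort^[t] w).Perm w := by
  induction t with
  | zero => intro w _; exact List.Perm.refl _
  | succ t ih =>
    intro w hw
    rw [Function.iterate_succ_apply]
    have hp := revstackSort_perm w hw
    exact (ih _ (hp.nodup_iff.2 hw)).trans hp

/-- An unsorted permutation has an inversion. -/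
lemma exists_inversion (n : ℕ) (w : List ℕ) (hw : w.Perm (List.range' 1 n))
    (hne : w ≠ List.range' 1 n) : ∃ y ∈ w, Zig w y 1 := by
  by_contra hcon
  apply hne
  have hnd : w.Nodup := hw.nodup_iff.2 (List.nodup_range' (s := 1) (n := n))
  have hsorted : w.Pairwise (· ≤ ·) := by
    rw [List.pairwise_iff_getElem]
    intro i j hi hj hij
    by_contra hlt
    push Not at hlt
    apply hcon
    refine ⟨w[i], List.getElem_mem hi, [w[j]], ?_, ?_, ?_⟩
    · simp [hlt]
    · simp
    · simp only [List.map_cons, List.map_nil, alt, sideR]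
      rw [hnd.idxOf_getElem, hnd.idxOf_getElem]
      simp [hij]
  have hs2 : (List.range' 1 n).Pairwise (· ≤ ·) := by
    have := List.pairwise_le_range' (s := 1) (n := n)
    simpa using this
  exact List.Perm.eq_of_pairwise' hsorted hs2 hw

/-- If `T^t(w)` is not the identity, some letter `z` sees the smaller letters in an alternating
pattern of length `t + 1`. -/
lemma zig_of_unsorted (n t : ℕ) (w : List ℕ) (hw : w.Perm (List.range' 1 n))
    (hne : revstackSort^[t] w ≠ List.range' 1 n) : ∃ z ∈ w, Zig w z (t + 1) := by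
  have hnd : w.Nodup := hw.nodup_iff.2 (List.nodup_range' (s := 1) (n := n))
  have hp := revstackSort_iter_perm t w hnd
  obtain ⟨y, hy, hzig⟩ := exists_inversion n (revstackSort^[t] w) (hp.trans hw) hne
  obtain ⟨z, hz, h⟩ := zig_iter t w hnd y 1 (hp.mem_iff.1 hy) le_rfl hzig
  exact ⟨z, hz, by rw [add_comm]; exact h⟩

end Pool.Agent.H19.StackSort
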