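import Mathlib

set_option autoImplicit false

open scoped Nat
open MeasureTheory

namespace Pool.Agent.H19.StackSort

/-- One step of the counter of alternations. In the state `(b, r)` we wait for the letter `b` and
still need `r` alternations. -/
def step : Bool × ℕ → Bool → Bool × ℕ
  | (b, 0), _ => (b, 0)
  | (b, r + 1), x => if x = b then (!b, r) else (b, r + 1)

/-- The probability that the counter reaches `0` within `m` steps, when the letters are
independent, `false` with probability `p` and `true` with probability `1 - p`. -/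
noncomputable def Q : ℕ → Bool × ℕ → ℝ → ℝ
  | 0, σ, _ => if σ.2 = 0 then 1 else 0
  | m + 1, σ, p => p * Q m (step σ false) p + (1 - p) * Q m (step σ true) p

/-- `Bt m j = ∑_{i ≥ j} C(m, i)`. -/
def Bt : ℕ → ℕ → ℕ
  | m, 0 => 2 ^ m
  | 0, _ + 1 => 0
  | m + 1, j + 1 => Bt m j + Bt m (j + 1)

lemma Bt_zero (m : ℕ) : Bt m 0 = 2 ^ m := by cases m <;> rfl

lemma Bt_zero_succ (j : ℕ) : Bt 0 (j + 1) = 0 := rfl

lemma Bt_succ (m j : ℕ) : Bt (m + 1) (j + 1) = Bt m j + Bt m (j + 1) := rfl

lemma Q_done (m : ℕ) (b : Bool) (p : ℝ) : Q m (b, 0) p = 1 := by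
  induction m with
  | zero => simp [Q]
  | succ m ih =>
    have h1 : step (b, 0) false = (b, 0) := rfl
    have h2 : step (b, 0) true = (b, 0) := rfl
    rw [Q, h1, h2, ih]
    ring

lemma Q_true_succ (m r : ℕ) (p : ℝ) :
    Q (m + 1) (true, r + 1) p = p * Q m (true, r + 1) p + (1 - p) * Q m (false, r) p := by
  have h1 : step (true, r + 1) false = (true, r + 1) := by simp [step]
  have h2 : step (true, r + 1) true = (false, r) := by simp [step]
  rw [Q, h1, h2]

lemma Q_false_succ (m r : ℕ) (p : ℝ) :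
    Q (m + 1) (false, r + 1) p = p * Q m (true, r) p + (1 - p) * Q m (false, r + 1) p := by
  have h1 : step (false, r + 1) false = (true, r) := by simp [step]
  have h2 : step (false, r + 1) true = (false, r + 1) := by simp [step]
  rw [Q, h1, h2]

lemma Q_zero_succ (b : Bool) (r : ℕ) (p : ℝ) : Q 0 (b, r + 1) p = 0 := by
  simp [Q]

lemma Q_symm (m : ℕ) : ∀ (b : Bool) (r : ℕ) (p : ℝ), Q m (b, r) (1 - p) = Q m (!b, r) p := by
  induction m with
  | zero => intro b r p; simp [Q]
  | succ m ih =>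
    intro b r p
    rcases r with _ | r
    · rw [Q_done, Q_done]
    · cases b
      · simp only [Bool.not_false]
        rw [Q_false_succ, Q_true_succ, ih, ih]
        simp only [Bool.not_true, Bool.not_false]
        ring
      · simp only [Bool.not_true]
        rw [Q_false_succ, Q_true_succ, ih, ih]
        simp only [Bool.not_true, Bool.not_false]
        ring

lemma Q_continuous (m : ℕ) : ∀ σ : Bool × ℕ, Continuous (Q m σ) := by
  induction m with
  | zero => intro σ; exact continuous_const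
  | succ m ih =>
    intro σ
    exact (continuous_id.mul (ih _)).add ((continuous_const.sub continuous_id).mul (ih _))

lemma Q_nonneg (m : ℕ) : ∀ (σ : Bool × ℕ) (p : ℝ), 0 ≤ p → p ≤ 1 → 0 ≤ Q m σ p := by
  induction m with
  | zero => intro σ p _ _; simp only [Q]; split_ifs <;> norm_num
  | succ m ih =>
    intro σ p h0 h1
    have := ih (step σ false) p h0 h1
    have := ih (step σ true) p h0 h1
    rw [Q]
    have : 0 ≤ 1 - p := by linarith
    positivity

lemma Q_le_one (m : ℕ) : ∀ (σ : Bool × ℕ) (p : ℝ), 0 ≤ p → p ≤ 1 → Q m σ p ≤ 1 := by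
  induction m with
  | zero => intro σ p _ _; simp only [Q]; split_ifs <;> norm_num
  | succ m ih =>
    intro σ p h0 h1
    have h2 := ih (step σ false) p h0 h1
    have h3 := ih (step σ true) p h0 h1
    rw [Q]
    nlinarith

lemma Q_antitone (m : ℕ) : ∀ (b : Bool) (r : ℕ) (p : ℝ), 0 ≤ p → p ≤ 1 →
    Q m (b, r + 1) p ≤ Q m (b, r) p := by
  induction m with
  | zero =>
    intro b r p h0 h1
    rw [Q_zero_succ]
    exact Q_nonneg 0 _ p h0 h1
  | succ m ih =>
    intro b r p h0 h1
    rcases r with _ | r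
    · rw [Q_done]
      exact Q_le_one _ _ p h0 h1
    · cases b
      · rw [Q_false_succ, Q_false_succ]
        have e1 := ih true r p h0 h1
        have e2 := ih false (r + 1) p h0 h1
        nlinarith
      · rw [Q_true_succ, Q_true_succ]
        have e1 := ih false r p h0 h1
        have e2 := ih true (r + 1) p h0 h1
        nlinarith

lemma Q_even (m : ℕ) : ∀ (k : ℕ) (p : ℝ), Q m (true, 2 * k) p = Q m (false, 2 * k) p ∧
    (2 * p - 1) * Q m (true, 2 * k + 2) p
      = p * Q m (true, 2 * k + 1) p - (1 - p) * Q m (false, 2 * k + 1) p := by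
  induction m with
  | zero =>
    intro k p
    constructor
    · simp [Q]
    · rw [Q_zero_succ, Q_zero_succ, Q_zero_succ]; ring
  | succ m ih =>
    intro k p
    constructor
    · rcases k with _ | k
      · rw [mul_zero, Q_done, Q_done]
      · have h1 := (ih k p).2
        have h2 := (ih (k + 1) p).1
        rw [show 2 * (k + 1) = 2 * k + 1 + 1 by ring] at h2 ⊢
        rw [Q_true_succ, Q_false_succ]
        rw [show 2 * k + 2 = 2 * k + 1 + 1 by ring] at h1
        rw [← h2]
        linear_combination h1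
    · have h1 := (ih k p).1
      have h2 := (ih k p).2
      rw [show 2 * k + 2 = 2 * k + 1 + 1 by ring] at h2 ⊢
      rw [Q_true_succ m (2 * k + 1), Q_true_succ m (2 * k), Q_false_succ m (2 * k)]
      linear_combination p * h2 + p * (1 - p) * h1

lemma Q_odd (m : ℕ) : ∀ (k : ℕ) (p : ℝ), 1 / 2 ≤ p → p ≤ 1 →
    Q m (true, 2 * k + 1) p ≤ Q m (false, 2 * k + 1) p := by
  induction m with
  | zero => intro k p _ _; rw [Q_zero_succ, Q_zero_succ]
  | succ m ih =>
    intro k p h0 h1
    have e1 := (Q_even m k p).1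
    have e2 := ih k p h0 h1
    have e3 := Q_antitone m false (2 * k) p (by linarith) h1
    rw [Q_true_succ, Q_false_succ, e1]
    nlinarith [mul_nonneg (by linarith : (0 : ℝ) ≤ 2 * p - 1)
      (by linarith : (0 : ℝ) ≤ Q m (false, 2 * k) p - Q m (true, 2 * k + 1) p),
      mul_nonneg (by linarith : (0 : ℝ) ≤ 1 - p)
      (by linarith : (0 : ℝ) ≤ Q m (false, 2 * k + 1) p - Q m (true, 2 * k + 1) p)]

lemma Q_le_false (m r : ℕ) (p : ℝ) (h0 : 1 / 2 ≤ p) (h1 : p ≤ 1) :
    Q m (true, r) p ≤ Q m (false, r) p := by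
  rcases Nat.even_or_odd' r with ⟨k, rfl | rfl⟩
  · exact (Q_even m k p).1.le
  · exact Q_odd m k p h0 h1

lemma Q_sum_le (m : ℕ) : ∀ (r : ℕ) (p : ℝ), 1 / 2 ≤ p → p ≤ 1 →
    Q m (true, r) p + Q m (false, r) p ≤ 2 * ((Bt m r : ℝ) / 2 ^ m) := by
  induction m with
  | zero =>
    intro r p _ _
    rcases r with _ | r
    · rw [Q_done, Q_done, Bt_zero]; norm_num
    · rw [Q_zero_succ, Q_zero_succ, Bt_zero_succ]; norm_num
  | succ m ih =>
    intro r p h0 h1
    rcases r with _ | r
    · rw [Q_done, Q_done, Bt_zero]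
      push_cast
      rw [div_self (by positivity)]
      norm_num
    · have e1 := ih r p h0 h1
      have e2 := ih (r + 1) p h0 h1
      have e3 := Q_le_false m r p h0 h1
      have e4 := Q_le_false m (r + 1) p h0 h1
      rw [Q_true_succ, Q_false_succ, Bt_succ]
      have e5 : 2 * (((Bt m r + Bt m (r + 1) : ℕ) : ℝ) / 2 ^ (m + 1))
          = 1 / 2 * (2 * ((Bt m r : ℝ) / 2 ^ m)) + 1 / 2 * (2 * ((Bt m (r + 1) : ℝ) / 2 ^ m)) := by
        push_cast
        rw [pow_succ]
        field_simp
      rw [e5]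
      nlinarith [mul_nonneg (by linarith : (0 : ℝ) ≤ p - 1 / 2)
        (by linarith : (0 : ℝ) ≤ Q m (false, r) p - Q m (true, r) p),
        mul_nonneg (by linarith : (0 : ℝ) ≤ p - 1 / 2)
        (by linarith : (0 : ℝ) ≤ Q m (false, r + 1) p - Q m (true, r + 1) p)]

lemma Q_sum_le' (m r : ℕ) (p : ℝ) (h0 : 0 ≤ p) (h1 : p ≤ 1) :
    Q m (true, r) p + Q m (false, r) p ≤ 2 * ((Bt m r : ℝ) / 2 ^ m) := by
  rcases le_total (1 / 2) p with h | h
  · exact Q_sum_le m r p h h1
  · have := Q_sum_le m r (1 - p) (by linarith) (by linarith)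
    rw [Q_symm, Q_symm] at this
    simp only [Bool.not_true, Bool.not_false] at this
    linarith

lemma Q_integrable (m : ℕ) (σ : Bool × ℕ) (a b : ℝ) :
    IntervalIntegrable (Q m σ) volume a b := (Q_continuous m σ).intervalIntegrable a b

lemma Q_integral_symm (m r : ℕ) :
    ∫ p in (0 : ℝ)..1, Q m (true, r) p = ∫ p in (0 : ℝ)..1, Q m (false, r) p := by
  have h := intervalIntegral.integral_comp_sub_left (a := (0 : ℝ)) (b := 1) (Q m (true, r)) 1
  simp only [sub_zero, sub_self] at h
  rw [← h]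
  apply intervalIntegral.integral_congr
  intro p _
  simp only [Q_symm, Bool.not_true]

/-- The averaged probability is at most the binomial tail. -/
lemma Q_integral_le (m r : ℕ) : ∫ p in (0 : ℝ)..1, Q m (true, r) p ≤ (Bt m r : ℝ) / 2 ^ m := by
  have h1 : ∫ p in (0 : ℝ)..1, (Q m (true, r) p + Q m (false, r) p)
      ≤ ∫ p in (0 : ℝ)..1, 2 * ((Bt m r : ℝ) / 2 ^ m) := by
    apply intervalIntegral.integral_mono_on (by norm_num)
      ((Q_integrable _ _ _ _).add (Q_integrable _ _ _ _)) (by simp)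
    intro p hp
    exact Q_sum_le' m r p hp.1 hp.2
  rw [intervalIntegral.integral_add (Q_integrable _ _ _ _) (Q_integrable _ _ _ _),
    ← Q_integral_symm] at h1
  simp only [intervalIntegral.integral_const, sub_zero, smul_eq_mul, one_mul] at h1
  linarith

lemma beta_integrable (i j : ℕ) (a b : ℝ) :
    IntervalIntegrable (fun p : ℝ => p ^ i * (1 - p) ^ j) volume a b := by
  apply Continuous.intervalIntegrable
  fun_prop

lemma beta_integral (j : ℕ) : ∀ i : ℕ, ∫ p in (0 : ℝ)..1, p ^ i * (1 - p) ^ j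
    = (i ! : ℝ) * (j ! : ℝ) / ((i + j + 1)! : ℝ) := by
  induction j with
  | zero =>
    intro i
    simp only [pow_zero, mul_one, Nat.factorial_zero, Nat.cast_one, add_zero]
    rw [integral_pow, Nat.factorial_succ]
    push_cast
    have : (i ! : ℝ) ≠ 0 := by positivity
    field_simp
    simp
  | succ j ih =>
    intro i
    have h1 : ∫ p in (0 : ℝ)..1, p ^ i * (1 - p) ^ (j + 1)
        = (∫ p in (0 : ℝ)..1, p ^ i * (1 - p) ^ j) - ∫ p in (0 : ℝ)..1, p ^ (i + 1) * (1 - p) ^ j := by
      rw [← intervalIntegral.integral_sub (beta_integrable _ _ _ _) (beta_integrable _ _ _ _)]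
      apply intervalIntegral.integral_congr
      intro p _
      ring
    rw [h1, ih i, ih (i + 1)]
    rw [show i + 1 + j + 1 = i + j + 1 + 1 by ring, show i + (j + 1) + 1 = i + j + 1 + 1 by ring,
      Nat.factorial_succ (i + j + 1), Nat.factorial_succ i, Nat.factorial_succ j]
    push_cast
    have h2 : ((i + j + 1)! : ℝ) ≠ 0 := by positivity
    have h3 : ((i : ℝ) + j + 1 + 1) ≠ 0 := by positivity
    field_simp
    ring

/-- The expected number of successful completions. -/
noncomputable def K (m i j : ℕ) (σ : Bool × ℕ) : ℝ :=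
  ((i + j + 1 + m)! : ℝ) / ((i ! : ℝ) * (j ! : ℝ)) *
    ∫ p in (0 : ℝ)..1, p ^ i * (1 - p) ^ j * Q m σ p

lemma KQ_integrable (i j m : ℕ) (σ : Bool × ℕ) (a b : ℝ) :
    IntervalIntegrable (fun p : ℝ => p ^ i * (1 - p) ^ j * Q m σ p) volume a b := by
  apply Continuous.intervalIntegrable
  have := Q_continuous m σ
  fun_prop

lemma K_succ (m i j : ℕ) (σ : Bool × ℕ) :
    ((i : ℝ) + 1) * K m (i + 1) j (step σ false) + ((j : ℝ) + 1) * K m i (j + 1) (step σ true)
      = K (m + 1) i j σ := by
  unfold K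
  have h1 : ∫ p in (0 : ℝ)..1, p ^ i * (1 - p) ^ j * Q (m + 1) σ p
      = (∫ p in (0 : ℝ)..1, p ^ (i + 1) * (1 - p) ^ j * Q m (step σ false) p)
        + ∫ p in (0 : ℝ)..1, p ^ i * (1 - p) ^ (j + 1) * Q m (step σ true) p := by
    rw [← intervalIntegral.integral_add (KQ_integrable _ _ _ _ _ _) (KQ_integrable _ _ _ _ _ _)]
    apply intervalIntegral.integral_congr
    intro p _
    simp only [Q]
    ring
  rw [h1]
  rw [show i + 1 + j + 1 + m = i + j + 1 + (m + 1) by ring,
    show i + (j + 1) + 1 + m = i + j + 1 + (m + 1) by ring,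
    Nat.factorial_succ i, Nat.factorial_succ j]
  push_cast
  have h2 : (i ! : ℝ) ≠ 0 := by positivity
  have h3 : (j ! : ℝ) ≠ 0 := by positivity
  have h4 : ((i : ℝ) + 1) ≠ 0 := by positivity
  have h5 : ((j : ℝ) + 1) ≠ 0 := by positivity
  field_simp

lemma K_zero (i j : ℕ) (σ : Bool × ℕ) : K 0 i j σ = if σ.2 = 0 then 1 else 0 := by
  unfold K
  simp only [Q, add_zero]
  split_ifs with h
  · simp only [mul_one]
    rw [beta_integral]
    have h1 : (i ! : ℝ) ≠ 0 := by positivity
    have h2 : (j ! : ℝ) ≠ 0 := by positivity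
    have h3 : ((i + j + 1)! : ℝ) ≠ 0 := by positivity
    field_simp
  · simp

lemma K_total (m N : ℕ) (σ : Bool × ℕ) :
    (N ! : ℝ) * ∑ i ∈ Finset.range (N + 1), K m i (N - i) σ
      = ((N + 1 + m)! : ℝ) * ∫ p in (0 : ℝ)..1, Q m σ p := by
  unfold K
  have h1 : ∀ i ∈ Finset.range (N + 1), (N ! : ℝ) * (((i + (N - i) + 1 + m)! : ℝ) /
      ((i ! : ℝ) * ((N - i)! : ℝ)) * ∫ p in (0 : ℝ)..1, p ^ i * (1 - p) ^ (N - i) * Q m σ p)
      = ((N + 1 + m)! : ℝ) * ∫ p in (0 : ℝ)..1, (p ^ i * (1 - p) ^ (N - i) * (N.choose i : ℝ))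
        * Q m σ p := by
    intro i hi
    have hi' : i ≤ N := Nat.lt_succ_iff.1 (Finset.mem_range.1 hi)
    rw [show i + (N - i) + 1 + m = N + 1 + m by omega]
    have h2 : ∫ p in (0 : ℝ)..1, (p ^ i * (1 - p) ^ (N - i) * (N.choose i : ℝ)) * Q m σ p
        = (N.choose i : ℝ) * ∫ p in (0 : ℝ)..1, p ^ i * (1 - p) ^ (N - i) * Q m σ p := by
      rw [← intervalIntegral.integral_const_mul]
      apply intervalIntegral.integral_congr
      intro p _
      ring
    rw [h2]
    have h3 : (N.choose i : ℝ) * ((i ! : ℝ) * ((N - i)! : ℝ)) = (N ! : ℝ) := by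
      have := Nat.choose_mul_factorial_mul_factorial hi'
      rw [← this]
      push_cast
      ring
    have h4 : (i ! : ℝ) ≠ 0 := by positivity
    have h5 : ((N - i)! : ℝ) ≠ 0 := by positivity
    rw [← h3]
    field_simp
  rw [Finset.mul_sum, Finset.sum_congr rfl h1, ← Finset.mul_sum,
    ← intervalIntegral.integral_finsetSum]
  · congr 1
    apply intervalIntegral.integral_congr
    intro p _
    simp only
    rw [← Finset.sum_mul, ← add_pow]
    simp
  · intro i _
    apply Continuous.intervalIntegrable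
    have := Q_continuous m σ
    fun_prop

end Pool.Agent.H19.StackSort
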