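import Mathlib
import Pool.Agent.H19.StackSort.TSide
import Pool.Agent.H19.StackSort.SSide
import Pool.Agent.H19.StackSort.Urn

set_option autoImplicit false

open scoped Nat

namespace Pool.Agent.H19.StackSort

lemma permAux_append (v z : ℕ) (B : List ℕ) : ∀ A : List ℕ,
    List.permutations'Aux v (A ++ z :: B)
      = (List.permutations'Aux v A).map (fun A' => A' ++ z :: B)
        ++ (List.permutations'Aux v B).map (fun B' => A ++ z :: B') := by
  intro A
  induction A with
  | nil => simp [List.permutations'Aux]
  | cons a A ih =>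
    rw [List.cons_append, List.permutations'Aux, ih, List.permutations'Aux]
    simp [List.map_map, Function.comp_def]

lemma sum_permAux {β : Type} [AddCommMonoid β] (z : ℕ) : ∀ (u : List ℕ) (F : List ℕ → β),
    ((List.permutations'Aux z u).map F).sum
      = ∑ a ∈ Finset.range (u.length + 1), F (u.take a ++ z :: u.drop a) := by
  intro u
  induction u with
  | nil => intro F; simp [List.permutations'Aux]
  | cons y u ih =>
    intro F
    rw [List.permutations'Aux, List.map_cons, List.sum_cons, List.map_map, ih (F ∘ List.cons y),
      List.length_cons, Finset.sum_range_succ' _ (u.length + 1)]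
    simp only [Function.comp, List.take_succ_cons, List.drop_succ_cons, List.take_zero,
      List.drop_zero, List.nil_append, List.cons_append]
    rw [add_comm]

lemma sum_permutations_cons {β : Type} [AddCommMonoid β] (v : ℕ) (l : List ℕ) (F : List ℕ → β) :
    ((List.permutations' (v :: l)).map F).sum
      = ((List.permutations' l).map (fun u => ((List.permutations'Aux v u).map F).sum)).sum := by
  rw [List.permutations']
  induction List.permutations' l with
  | nil => simp
  | cons a L ih =>
    rw [List.flatMap_cons, List.map_append, List.sum_append, ih, List.map_cons, List.sum_cons]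

/-- The letters `z - 1, z - 2, ..., z - k`. -/
def lows (z k : ℕ) : List ℕ := (List.range k).map (fun i => z - 1 - i)

lemma lows_succ (z k : ℕ) : lows z (k + 1) = lows z k ++ [z - 1 - k] := by
  simp [lows, List.range_succ]

/-- The state of the alternation counter after reading the sides of `z - 1, ..., z - k`. -/
def st (J : ℕ) (w : List ℕ) (z k : ℕ) : Bool × ℕ :=
  ((lows z k).map (sideR w z)).foldl step (true, J)

lemma st_zero (J : ℕ) (w : List ℕ) (z : ℕ) : st J w z 0 = (true, J) := rfl

lemma st_succ (J : ℕ) (w : List ℕ) (z k : ℕ) :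
    st J w z (k + 1) = step (st J w z k) (sideR w z (z - 1 - k)) := by
  simp [st, lows_succ]

lemma idxOf_mid (A B : List ℕ) (z : ℕ) (h : (A ++ z :: B).Nodup) :
    (A ++ z :: B).idxOf z = A.length := by
  rcases idx_split A B z z h (by simp) with ⟨h1, _⟩ | ⟨_, h1⟩ | ⟨h1, _⟩
  · exact absurd rfl ((List.nodup_append.1 h).2.2 z h1 z (by simp))
  · exact h1
  · exact absurd h1 (List.nodup_cons.1 (List.nodup_append.1 h).2.1).1

lemma sideR_split (A B : List ℕ) (z x : ℕ) (h : (A ++ z :: B).Nodup) (hx : x ∈ A ++ z :: B)
    (hne : x ≠ z) : sideR (A ++ z :: B) z x = decide (x ∈ B) := by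
  unfold sideR
  rw [idxOf_mid A B z h]
  rcases idx_split A B z x h hx with ⟨h1, h2, h3⟩ | ⟨h1, _⟩ | ⟨h1, h2, h3⟩
  · have h4 : x ∉ B := fun h' => (List.nodup_append.1 h).2.2 x h1 x (by simp [h']) rfl
    rw [h2]
    simp [h4]
    omega
  · exact absurd h1 hne
  · rw [h2]
    simp [h1]
    omega

lemma st_congr (J : ℕ) (w w' : List ℕ) (z k : ℕ)
    (h : ∀ x ∈ lows z k, sideR w z x = sideR w' z x) : st J w z k = st J w' z k := by
  unfold st
  rw [List.map_congr_left h]

/-- Inserting the next smaller letter `v` into the word `A z B`. -/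
lemma sum_insert_low (J z k m : ℕ) (A B : List ℕ) (v : ℕ) (hv : v = z - 1 - k) (hz : k + 1 ≤ z)
    (hnd : (A ++ z :: B).Nodup) (hvu : v ∉ A ++ z :: B)
    (hlow : ∀ x ∈ lows z k, x ∈ A ++ z :: B) :
    ((List.permutations'Aux v (A ++ z :: B)).map (fun w =>
        K m (w.idxOf z) (w.length - 1 - w.idxOf z) (st J w z (k + 1)))).sum
      = K (m + 1) ((A ++ z :: B).idxOf z) ((A ++ z :: B).length - 1 - (A ++ z :: B).idxOf z)
          (st J (A ++ z :: B) z k) := by
  have hxz : ∀ x ∈ lows z k, x ≠ z := by
    intro x hx
    simp only [lows, List.mem_map, List.mem_range] at hx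
    obtain ⟨i, hi, rfl⟩ := hx
    omega
  have hvz : v ≠ z := by omega
  have hvA : v ∉ A := fun h => hvu (by simp [h])
  have hvB : v ∉ B := fun h => hvu (by simp [h])
  have hxv : ∀ x ∈ lows z k, x ≠ v := by
    intro x hx h
    rw [h] at hx
    exact hvu (hlow v hx)
  rw [permAux_append, List.map_append, List.sum_append, List.map_map, List.map_map,
    ← K_succ]
  have hlen : (A ++ z :: B).length - 1 - (A ++ z :: B).idxOf z = B.length := by
    rw [idxOf_mid A B z hnd]
    simp only [List.length_append, List.length_cons]
    omega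
  rw [hlen, idxOf_mid A B z hnd]
  have hnd' : (v :: (A ++ z :: B)).Nodup := List.nodup_cons.2 ⟨hvu, hnd⟩
  have h1 : ∀ A' ∈ List.permutations'Aux v A, ((fun w : List ℕ =>
        K m (w.idxOf z) (w.length - 1 - w.idxOf z) (st J w z (k + 1))) ∘ fun A' => A' ++ z :: B) A'
      = K m (A.length + 1) B.length (step (st J (A ++ z :: B) z k) false) := by
    intro A' hA'
    have hp : A'.Perm (v :: A) := by
      have : A' ∈ List.permutations' (v :: A) := by
        rw [List.permutations', List.mem_flatMap]
        exact ⟨A, List.mem_permutations'.2 (List.Perm.refl _), hA'⟩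
      exact List.mem_permutations'.1 this
    have hpw : (A' ++ z :: B).Perm (v :: (A ++ z :: B)) := by
      rw [← List.cons_append]
      exact hp.append (List.Perm.refl _)
    have hndw : (A' ++ z :: B).Nodup := hpw.nodup_iff.2 hnd'
    have hstate : st J (A' ++ z :: B) z k = st J (A ++ z :: B) z k := by
      apply st_congr
      intro x hx
      rw [sideR_split A' B z x hndw (hpw.mem_iff.2 (List.mem_cons_of_mem _ (hlow x hx))) (hxz x hx),
        sideR_split A B z x hnd (hlow x hx) (hxz x hx)]
    have hside : sideR (A' ++ z :: B) z v = false := by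
      rw [sideR_split A' B z v hndw (hpw.mem_iff.2 (by simp)) hvz]
      simp [hvB]
    simp only [Function.comp]
    rw [st_succ, hstate, ← hv, hside, idxOf_mid A' B z hndw]
    congr 1
    · rw [hp.length_eq]; simp
    · simp only [List.length_append, List.length_cons]; omega
  have h2 : ∀ B' ∈ List.permutations'Aux v B, ((fun w : List ℕ =>
        K m (w.idxOf z) (w.length - 1 - w.idxOf z) (st J w z (k + 1))) ∘ fun B' => A ++ z :: B') B'
      = K m A.length (B.length + 1) (step (st J (A ++ z :: B) z k) true) := by
    intro B' hB'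
    have hp : B'.Perm (v :: B) := by
      have : B' ∈ List.permutations' (v :: B) := by
        rw [List.permutations', List.mem_flatMap]
        exact ⟨B, List.mem_permutations'.2 (List.Perm.refl _), hB'⟩
      exact List.mem_permutations'.1 this
    have hpw : (A ++ z :: B').Perm (v :: (A ++ z :: B)) := by
      have e1 : (A ++ z :: B').Perm (A ++ z :: (v :: B)) :=
        List.Perm.append_left A (List.Perm.cons z hp)
      have e2 : (A ++ z :: v :: B).Perm (A ++ v :: z :: B) :=
        List.Perm.append_left A (List.Perm.swap v z B)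
      exact (e1.trans e2).trans List.perm_middle
    have hndw : (A ++ z :: B').Nodup := hpw.nodup_iff.2 hnd'
    have hstate : st J (A ++ z :: B') z k = st J (A ++ z :: B) z k := by
      apply st_congr
      intro x hx
      rw [sideR_split A B' z x hndw (hpw.mem_iff.2 (List.mem_cons_of_mem _ (hlow x hx))) (hxz x hx),
        sideR_split A B z x hnd (hlow x hx) (hxz x hx)]
      have : x ∈ B' ↔ x ∈ B := by
        rw [hp.mem_iff, List.mem_cons]
        exact ⟨fun h => h.resolve_left (hxv x hx), Or.inr⟩
      simp [this]
    have hside : sideR (A ++ z :: B') z v = true := by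
      rw [sideR_split A B' z v hndw (hpw.mem_iff.2 (by simp)) hvz]
      simp [hp.mem_iff]
    simp only [Function.comp]
    rw [st_succ, hstate, ← hv, hside, idxOf_mid A B' z hndw]
    congr 1
    rw [List.length_append, List.length_cons, hp.length_eq]
    simp
  rw [List.map_congr_left h1, List.map_congr_left h2]
  simp only [List.map_const', List.sum_replicate, nsmul_eq_mul, List.length_permutations'Aux]
  push_cast
  ring

/-- The weighted total over the words on the letters `z - k, ..., n`. -/
noncomputable def total (J z n k : ℕ) : ℝ :=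
  ((List.permutations' (List.range' (z - k) (n - z + k + 1))).map (fun w =>
    K (z - 1 - k) (w.idxOf z) (w.length - 1 - w.idxOf z) (st J w z k))).sum

lemma total_succ (J z n k : ℕ) (hk : k + 1 ≤ z - 1) (hzn : z ≤ n) :
    total J z n (k + 1) = total J z n k := by
  unfold total
  have e1 : List.range' (z - (k + 1)) (n - z + (k + 1) + 1)
      = (z - (k + 1)) :: List.range' (z - k) (n - z + k + 1) := by
    rw [show n - z + (k + 1) + 1 = (n - z + k + 1) + 1 by ring, List.range'_succ,
      show z - (k + 1) + 1 = z - k by omega]
  rw [e1, sum_permutations_cons]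
  congr 1
  apply List.map_congr_left
  intro u hu
  have hp : u.Perm (List.range' (z - k) (n - z + k + 1)) := List.mem_permutations'.1 hu
  have hmem : ∀ x, x ∈ u ↔ z - k ≤ x ∧ x < z - k + (n - z + k + 1) := by
    intro x
    rw [hp.mem_iff, List.mem_range'_1]
  have hnd : u.Nodup := hp.nodup_iff.2 (List.nodup_range' (s := z - k) (n := n - z + k + 1))
  have hz : z ∈ u := (hmem z).2 (by omega)
  obtain ⟨A, B, rfl⟩ := List.append_of_mem hz
  have h := sum_insert_low J z k (z - 1 - (k + 1)) A B (z - (k + 1)) (by omega) (by omega) hnd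
    (fun h' => by have := (hmem _).1 h'; omega) (by
      intro x hx
      simp only [lows, List.mem_map, List.mem_range] at hx
      obtain ⟨i, hi, rfl⟩ := hx
      exact (hmem _).2 (by omega))
  rw [h, show z - 1 - (k + 1) + 1 = z - 1 - k by omega]

lemma total_eq (J z n : ℕ) (hzn : z ≤ n) : ∀ k, k ≤ z - 1 → total J z n k = total J z n 0 := by
  intro k
  induction k with
  | zero => intro _; rfl
  | succ k ih =>
    intro hk
    rw [total_succ J z n k hk hzn, ih (by omega)]

lemma length_permutations'_range (s N : ℕ) : (List.permutations' (List.range' s N)).length = N ! := by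
  rw [← (List.permutations_perm_permutations' (List.range' s N)).length_eq,
    List.length_permutations]
  simp

lemma total_zero (J z n : ℕ) (hz : 1 ≤ z) (hzn : z ≤ n) :
    total J z n 0 = (n ! : ℝ) * ∫ p in (0 : ℝ)..1, Q (z - 1) (true, J) p := by
  unfold total
  rw [Nat.sub_zero, Nat.add_zero, Nat.sub_zero, List.range'_succ, sum_permutations_cons]
  have h1 : ∀ u ∈ List.permutations' (List.range' (z + 1) (n - z)),
      ((List.permutations'Aux z u).map (fun w =>
        K (z - 1) (w.idxOf z) (w.length - 1 - w.idxOf z) (st J w z 0))).sum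
      = ∑ a ∈ Finset.range (n - z + 1), K (z - 1) a (n - z - a) (true, J) := by
    intro u hu
    have hp : u.Perm (List.range' (z + 1) (n - z)) := List.mem_permutations'.1 hu
    have hlen : u.length = n - z := by rw [hp.length_eq]; simp
    have hnd : u.Nodup := hp.nodup_iff.2 (List.nodup_range' (s := z + 1) (n := n - z))
    have hzu : z ∉ u := by
      rw [hp.mem_iff, List.mem_range'_1]
      omega
    rw [sum_permAux, hlen]
    apply Finset.sum_congr rfl
    intro a ha
    have ha' : a ≤ n - z := Nat.lt_succ_iff.1 (Finset.mem_range.1 ha)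
    have hnd2 : (u.take a ++ z :: u.drop a).Nodup := by
      have : (u.take a ++ z :: u.drop a).Perm (z :: (u.take a ++ u.drop a)) := List.perm_middle
      rw [this.nodup_iff, List.take_append_drop]
      exact List.nodup_cons.2 ⟨hzu, hnd⟩
    rw [idxOf_mid _ _ _ hnd2, st_zero]
    congr 1
    · rw [List.length_take]; omega
    · simp only [List.length_append, List.length_cons, List.length_take, List.length_drop]
      omega
  rw [List.map_congr_left h1]
  simp only [List.map_const', List.sum_replicate, nsmul_eq_mul]
  rw [length_permutations'_range, K_total]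
  rw [show n - z + 1 + (z - 1) = n by omega]

lemma total_top (J z n : ℕ) (hz : 1 ≤ z) (hzn : z ≤ n) :
    total J z n (z - 1) = ((List.permutations' (List.range' 1 n)).map (fun w =>
      if (st J w z (z - 1)).2 = 0 then (1 : ℝ) else 0)).sum := by
  unfold total
  rw [show z - (z - 1) = 1 by omega, show n - z + (z - 1) + 1 = n by omega,
    show z - 1 - (z - 1) = 0 by omega]
  congr 1
  apply List.map_congr_left
  intro w _
  rw [K_zero]

/-- The set of permutation words of `1, ..., n`. -/
def Pn (n : ℕ) : Finset (List ℕ) := (List.permutations' (List.range' 1 n)).toFinset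

lemma mem_Pn (n : ℕ) (w : List ℕ) : w ∈ Pn n ↔ w.Perm (List.range' 1 n) := by
  simp [Pn]

lemma nodup_permutations'_range (s N : ℕ) : (List.permutations' (List.range' s N)).Nodup := by
  rw [← (List.permutations_perm_permutations' (List.range' s N)).nodup_iff]
  exact List.nodup_permutations _ (List.nodup_range' (s := s) (n := N))

lemma card_Pn (n : ℕ) : (Pn n).card = n ! := by
  rw [Pn, List.toFinset_card_of_nodup (nodup_permutations'_range 1 n), length_permutations'_range]

lemma card_success (J z n : ℕ) (hz : 1 ≤ z) (hzn : z ≤ n) :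
    (((Pn n).filter (fun w => (st J w z (z - 1)).2 = 0)).card : ℝ)
      ≤ (n ! : ℝ) * ((Bt (z - 1) J : ℝ) / 2 ^ (z - 1)) := by
  have h1 : (((Pn n).filter (fun w => (st J w z (z - 1)).2 = 0)).card : ℝ)
      = total J z n (z - 1) := by
    rw [total_top J z n hz hzn, Finset.card_filter]
    push_cast
    rw [Pn, List.sum_toFinset _ (nodup_permutations'_range 1 n)]
  rw [h1, total_eq J z n hzn (z - 1) le_rfl, total_zero J z n hz hzn]
  exact mul_le_mul_of_nonneg_left (Q_integral_le (z - 1) J) (by positivity)

end Pool.Agent.H19.StackSort
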