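import Mathlib
import Pool.Agent.H19.StackSort.Urn

set_option autoImplicit false

namespace Pool.Agent.H19.StackSort

/-! ### The sum of binomial tails -/

/-- `∑_{m < n} P(Bin(m, 1/2) ≥ t + 1)`. -/
noncomputable def tailSum (n t : ℕ) : ℝ := ∑ m ∈ Finset.range n, (Bt m (t + 1) : ℝ) / 2 ^ m

/-- `2 ^ (n - 1) ∑_{m < n} Bt m (t + 1) / 2 ^ m` as a natural number. -/
def An : ℕ → ℕ → ℕ
  | 0, _ => 0
  | n + 1, t => 2 * An n t + Bt n (t + 1)

lemma tailSum_eq (n t : ℕ) : tailSum n t * 2 ^ n = 2 * (An n t : ℝ) := by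
  induction n with
  | zero => simp [tailSum, An]
  | succ n ih =>
    unfold tailSum at ih ⊢
    rw [Finset.sum_range_succ, An, add_mul, pow_succ]
    have h : (Bt n (t + 1) : ℝ) / 2 ^ n * (2 ^ n * 2) = 2 * (Bt n (t + 1) : ℝ) := by
      field_simp
    rw [h, ← mul_assoc, ih]
    push_cast
    ring

lemma tailSum_lt_of_An (n t : ℕ) (hn : 2 ≤ n) (ht : t + 1 ≤ n)
    (h : 2 * (n * (n - 1)) * An n t < 2 ^ (n - 1) * ((n - t) * (n - t - 1))) :
    tailSum n t < ((n : ℝ) - t) * ((n : ℝ) - t - 1) / (2 * (n * ((n : ℝ) - 1))) := by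
  have h1 : ((2 * (n * (n - 1)) * An n t : ℕ) : ℝ) < ((2 ^ (n - 1) * ((n - t) * (n - t - 1)) : ℕ) : ℝ) := by
    exact_mod_cast h
  push_cast [Nat.cast_sub (show 1 ≤ n by omega), Nat.cast_sub (show t ≤ n by omega),
    Nat.cast_sub (show 1 ≤ n - t by omega)] at h1
  have h2 := tailSum_eq n t
  have h3 : (2 : ℝ) ^ n = 2 * 2 ^ (n - 1) := by
    conv_lhs => rw [show n = (n - 1) + 1 by omega]
    rw [pow_succ]
    ring
  have hpos : (0 : ℝ) < 2 ^ (n - 1) := by positivity
  have h4 : (An n t : ℝ) = tailSum n t * 2 ^ (n - 1) := by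
    rw [h3] at h2
    linarith
  have hn' : (2 : ℝ) ≤ n := by exact_mod_cast hn
  have h5 : (0 : ℝ) < 2 * (n * ((n : ℝ) - 1)) := by
    have : (0 : ℝ) < (n : ℝ) - 1 := by linarith
    positivity
  rw [lt_div_iff₀ h5]
  rw [h4] at h1
  have h6 : 2 ^ (n - 1) * (tailSum n t * (2 * (n * ((n : ℝ) - 1))))
      < 2 ^ (n - 1) * (((n : ℝ) - t) * ((n : ℝ) - t - 1)) := by
    linarith
  exact lt_of_mul_lt_mul_left h6 hpos.le

/-! ### The finite check -/

def rowStep (l : List ℕ) : List ℕ := (2 * l.headD 0) :: List.zipWith (· + ·) l l.tail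

def accStep (a r : List ℕ) : List ℕ := List.zipWith (fun x y => 2 * x + y) a r.tail

/-- check the entries `a = [An n 0, ..., An n (M-1)]`, starting with index `t` -/
def checkRow (n : ℕ) : ℕ → List ℕ → Bool
  | _, [] => true
  | t, x :: l => (decide (3 * t < 2 * n) || decide (n < t + 4) ||
      decide (2 * (n * (n - 1)) * x < 2 ^ (n - 1) * ((n - t) * (n - t - 1)))) && checkRow n (t + 1) l

def checkAll : ℕ → ℕ → List ℕ → List ℕ → Bool
  | 0, _, _, _ => true
  | k + 1, n, r, a => checkRow n 0 a && checkAll k (n + 1) (rowStep r) (accStep a r)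

lemma rowStep_eq (M m : ℕ) : rowStep ((List.range (M + 1)).map (Bt m))
    = (List.range (M + 1)).map (Bt (m + 1)) := by
  apply List.ext_getElem
  · simp [rowStep]
  · intro i h1 h2
    simp only [rowStep]
    rcases i with _ | i
    · simp [List.range_succ_eq_map, Bt_zero, pow_succ]
      ring
    · simp [Bt_succ]

lemma accStep_eq (M n : ℕ) : accStep ((List.range M).map (An n)) ((List.range (M + 1)).map (Bt n))
    = (List.range M).map (An (n + 1)) := by
  apply List.ext_getElem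
  · simp [accStep]
  · intro i h1 h2
    simp [accStep, An]

lemma checkRow_spec (n : ℕ) : ∀ (l : List ℕ) (t : ℕ), checkRow n t l = true →
    ∀ i (hi : i < l.length), 2 * n ≤ 3 * (t + i) → (t + i) + 4 ≤ n →
      2 * (n * (n - 1)) * l[i] < 2 ^ (n - 1) * ((n - (t + i)) * (n - (t + i) - 1)) := by
  intro l
  induction l with
  | nil => intro t _ i hi; simp at hi
  | cons x l ih =>
    intro t h i hi h1 h2
    rw [checkRow, Bool.and_eq_true] at h
    obtain ⟨h3, h4⟩ := h
    rcases i with _ | i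
    · simp only [Bool.or_eq_true, decide_eq_true_eq] at h3
      simp only [add_zero, List.getElem_cons_zero] at *
      rcases h3 with (h3 | h3) | h3
      · omega
      · omega
      · exact h3
    · have := ih (t + 1) h4 i (by simpa using hi) (by omega) (by omega)
      simp only [List.getElem_cons_succ]
      rw [show t + (i + 1) = t + 1 + i by ring]
      exact this

lemma checkAll_spec (M : ℕ) : ∀ (k n : ℕ),
    checkAll k n ((List.range (M + 1)).map (Bt n)) ((List.range M).map (An n)) = true →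
    ∀ j, n ≤ j → j < n + k → checkRow j 0 ((List.range M).map (An j)) = true := by
  intro k
  induction k with
  | zero => intro n _ j h1 h2; omega
  | succ k ih =>
    intro n h j h1 h2
    rw [checkAll, Bool.and_eq_true, rowStep_eq, accStep_eq] at h
    rcases h1.eq_or_lt with h3 | h3
    · subst h3; exact h.1
    · exact ih (n + 1) h.2 j h3 (by omega)

lemma check61 : checkAll 61 0 (1 :: List.replicate 57 0) (List.replicate 57 0) = true := by
  decide +kernel

lemma init_row (M : ℕ) : (List.range (M + 1)).map (Bt 0) = 1 :: List.replicate M 0 := by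
  apply List.ext_getElem
  · simp
  · intro i h1 h2
    rcases i with _ | i
    · simp [List.range_succ_eq_map, Bt_zero]
    · simp [Bt_zero_succ]

lemma init_acc (M : ℕ) : (List.range M).map (An 0) = List.replicate M 0 := by
  apply List.ext_getElem
  · simp
  · intro i h1 h2
    simp [An]

lemma small_case (n t : ℕ) (hn : n ≤ 60) (h1 : 2 * n ≤ 3 * t) (h2 : t + 4 ≤ n) :
    2 * (n * (n - 1)) * An n t < 2 ^ (n - 1) * ((n - t) * (n - t - 1)) := by
  have h := check61
  rw [← init_row, ← init_acc] at h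
  have h3 := checkAll_spec 57 61 0 h n (by omega) (by omega)
  have h4 := checkRow_spec n _ 0 h3 t (by simp; omega) (by omega) (by omega)
  simpa using h4

/-! ### Chernoff bound -/

lemma Bt_chernoff (x : ℝ) (hx : 1 ≤ x) : ∀ m j : ℕ, (Bt m j : ℝ) * x ^ j ≤ (1 + x) ^ m := by
  intro m
  induction m with
  | zero =>
    intro j
    rcases j with _ | j
    · simp [Bt_zero]
    · simp [Bt_zero_succ]
  | succ m ih =>
    intro j
    rcases j with _ | j
    · rw [Bt_zero]
      push_cast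
      rw [pow_zero, mul_one]
      exact pow_le_pow_left₀ (by norm_num) (by linarith) _
    · rw [Bt_succ]
      push_cast
      have h1 := ih j
      have h2 := ih (j + 1)
      have h3 : ((Bt m j : ℝ) + (Bt m (j + 1) : ℝ)) * x ^ (j + 1)
          = x * ((Bt m j : ℝ) * x ^ j) + (Bt m (j + 1) : ℝ) * x ^ (j + 1) := by
        rw [pow_succ]; ring
      rw [h3, pow_succ (1 + x) m]
      have h4 : x * ((Bt m j : ℝ) * x ^ j) ≤ x * (1 + x) ^ m :=
        mul_le_mul_of_nonneg_left h1 (by linarith)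
      nlinarith

/-! ### The range `t ≥ 2n/3` -/

lemma tailSum_le_two (n t : ℕ) : tailSum n t ≤ (3 / 2) ^ n / 2 ^ t := by
  have h1 : tailSum n t ≤ ∑ m ∈ Finset.range n, (3 / 2 : ℝ) ^ m / 2 ^ (t + 1) := by
    unfold tailSum
    apply Finset.sum_le_sum
    intro m _
    have h := Bt_chernoff 2 (by norm_num) m (t + 1)
    rw [div_pow, div_div, div_le_div_iff₀ (by positivity) (by positivity)]
    have h3 : (1 + 2 : ℝ) = 3 := by norm_num
    rw [h3] at h
    have h4 : (0 : ℝ) < 2 ^ m := by positivity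
    nlinarith
  have h2 : ∑ m ∈ Finset.range n, (3 / 2 : ℝ) ^ m / 2 ^ (t + 1)
      = ((3 / 2 : ℝ) ^ n - 1) / 2 ^ t := by
    rw [← Finset.sum_div, geom_sum_eq (by norm_num), pow_succ]
    field_simp
    ring
  rw [h2] at h1
  refine h1.trans ?_
  apply div_le_div_of_nonneg_right _ (by positivity)
  linarith

lemma big_base (d : ℕ) (hd : 20 ≤ d) : 6 * (3 * d - 1) * 54 ^ d < 64 ^ d * (d - 1) := by
  induction d, hd using Nat.le_induction with
  | base => norm_num
  | succ d hd ih =>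
    obtain ⟨e, rfl⟩ : ∃ e, d = e + 1 := ⟨d - 1, by omega⟩
    have h1 : 3 * (e + 1) - 1 = 3 * e + 2 := by omega
    have h2 : e + 1 - 1 = e := by omega
    have h3 : 3 * (e + 1 + 1) - 1 = 3 * e + 5 := by omega
    have h4 : e + 1 + 1 - 1 = e + 1 := by omega
    rw [h1, h2] at ih
    rw [h3, h4, pow_succ 54 (e + 1), pow_succ 64 (e + 1)]
    -- (3e+5) e ≤ (3e+2)(e+1)
    have h5 : (3 * e + 5) * e ≤ (3 * e + 2) * (e + 1) := by nlinarith
    have h6 : 0 < e := by omega
    have h7 : 0 < 3 * e + 2 := by omega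
    -- multiply
    have h8 : (6 * (3 * e + 5) * (54 ^ (e + 1) * 54)) * e
        ≤ (6 * (3 * e + 2) * 54 ^ (e + 1)) * (54 * (e + 1)) := by
      calc (6 * (3 * e + 5) * (54 ^ (e + 1) * 54)) * e
          = (6 * 54 ^ (e + 1) * 54) * ((3 * e + 5) * e) := by ring
        _ ≤ (6 * 54 ^ (e + 1) * 54) * ((3 * e + 2) * (e + 1)) := Nat.mul_le_mul_left _ h5
        _ = _ := by ring
    have h9 : (6 * (3 * e + 2) * 54 ^ (e + 1)) * (54 * (e + 1))
        < (64 ^ (e + 1) * e) * (64 * (e + 1)) := by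
      calc (6 * (3 * e + 2) * 54 ^ (e + 1)) * (54 * (e + 1))
          ≤ (6 * (3 * e + 2) * 54 ^ (e + 1)) * (64 * (e + 1)) := by
            apply Nat.mul_le_mul_left
            omega
        _ < _ := Nat.mul_lt_mul_of_pos_right ih (by omega)
    have h10 : (6 * (3 * e + 5) * (54 ^ (e + 1) * 54)) * e
        < (64 ^ (e + 1) * 64 * (e + 1)) * e := by
      calc _ < _ := lt_of_le_of_lt h8 h9
        _ = _ := by ring
    exact lt_of_mul_lt_mul_right h10 (Nat.zero_le _)

lemma big_step (n d : ℕ) (hn : 7 ≤ n)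
    (h : 2 * (n * (n - 1)) * 3 ^ n * 2 ^ d < 4 ^ n * (d * (d - 1))) :
    2 * ((n + 1) * (n + 1 - 1)) * 3 ^ (n + 1) * 2 ^ d < 4 ^ (n + 1) * (d * (d - 1)) := by
  obtain ⟨k, rfl⟩ : ∃ k, n = k + 1 := ⟨n - 1, by omega⟩
  have h1 : k + 1 - 1 = k := by omega
  have h2 : k + 1 + 1 - 1 = k + 1 := by omega
  rw [h1] at h
  rw [h2, pow_succ 3 (k + 1), pow_succ 4 (k + 1)]
  have h3 : 0 < k := by omega
  have h5 : 3 * (k + 2) ≤ 4 * k := by omega
  calc 2 * ((k + 1 + 1) * (k + 1)) * (3 ^ (k + 1) * 3) * 2 ^ d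
      = (2 * (k + 1) * 3 ^ (k + 1) * 2 ^ d) * (3 * (k + 2)) := by ring
    _ ≤ (2 * (k + 1) * 3 ^ (k + 1) * 2 ^ d) * (4 * k) := Nat.mul_le_mul_left _ h5
    _ = (2 * ((k + 1) * k) * 3 ^ (k + 1) * 2 ^ d) * 4 := by ring
    _ < (4 ^ (k + 1) * (d * (d - 1))) * 4 := Nat.mul_lt_mul_of_pos_right h (by norm_num)
    _ = _ := by ring

lemma big_nat (n d : ℕ) (hn : 60 ≤ n) (hd : 4 ≤ d) (hdn : 3 * d ≤ n) :
    2 * (n * (n - 1)) * 3 ^ n * 2 ^ d < 4 ^ n * (d * (d - 1)) := by
  obtain ⟨n₀, hn₀, hle, hbase⟩ : ∃ n₀, 60 ≤ n₀ ∧ n₀ ≤ n ∧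
      2 * (n₀ * (n₀ - 1)) * 3 ^ n₀ * 2 ^ d < 4 ^ n₀ * (d * (d - 1)) := by
    rcases le_total 20 d with h | h
    · refine ⟨3 * d, by omega, hdn, ?_⟩
      have h1 := big_base d h
      have h2 : 0 < d := by omega
      calc 2 * (3 * d * (3 * d - 1)) * 3 ^ (3 * d) * 2 ^ d
          = (6 * (3 * d - 1) * 54 ^ d) * d := by
            rw [pow_mul, show (54 : ℕ) = 3 ^ 3 * 2 by norm_num, mul_pow]
            ring
        _ < (64 ^ d * (d - 1)) * d := Nat.mul_lt_mul_of_pos_right h1 h2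
        _ = 4 ^ (3 * d) * (d * (d - 1)) := by
            rw [pow_mul, show (4 : ℕ) ^ 3 = 64 by norm_num]
            ring
    · refine ⟨60, le_rfl, hn, ?_⟩
      interval_cases d <;> norm_num
  induction n, hle using Nat.le_induction with
  | base => exact hbase
  | succ k hk ih =>
    rcases Nat.lt_or_ge k (3 * d) with h | h
    · -- then k + 1 = 3 d; use the monotonicity from n₀
      have hstep : ∀ j, 2 * ((n₀ + j) * (n₀ + j - 1)) * 3 ^ (n₀ + j) * 2 ^ d
          < 4 ^ (n₀ + j) * (d * (d - 1)) := by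
        intro j
        induction j with
        | zero => exact hbase
        | succ j ihj => exact big_step (n₀ + j) d (by omega) ihj
      have := hstep (k + 1 - n₀)
      rw [show n₀ + (k + 1 - n₀) = k + 1 by omega] at this
      exact this
    · exact big_step k d (by omega) (ih (by omega) h)

lemma range_two_thirds (n t : ℕ) (h1 : 2 * n ≤ 3 * t) (h2 : t + 4 ≤ n) :
    tailSum n t < ((n : ℝ) - t) * ((n : ℝ) - t - 1) / (2 * (n * ((n : ℝ) - 1))) := by
  rcases le_total n 60 with hn | hn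
  · exact tailSum_lt_of_An n t (by omega) (by omega) (small_case n t hn h1 h2)
  · refine lt_of_le_of_lt (tailSum_le_two n t) ?_
    obtain ⟨d, hd⟩ : ∃ d, n = t + d := ⟨n - t, by omega⟩
    have h3 := big_nat n d hn (by omega) (by omega)
    have h4 : ((2 * (n * (n - 1)) * 3 ^ n * 2 ^ d : ℕ) : ℝ) < ((4 ^ n * (d * (d - 1)) : ℕ) : ℝ) := by
      exact_mod_cast h3
    push_cast [Nat.cast_sub (show 1 ≤ n by omega), Nat.cast_sub (show 1 ≤ d by omega)] at h4
    have h5 : (n : ℝ) - t = d := by rw [hd]; push_cast; ring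
    rw [h5]
    have hn' : (60 : ℝ) ≤ n := by exact_mod_cast hn
    have h6 : (0 : ℝ) < 2 * (n * ((n : ℝ) - 1)) := by
      have : (0 : ℝ) < (n : ℝ) - 1 := by linarith
      positivity
    rw [lt_div_iff₀ h6]
    have h7 : (3 / 2 : ℝ) ^ n / 2 ^ t = 3 ^ n * 2 ^ d / 4 ^ n := by
      rw [div_pow, show (4 : ℝ) ^ n = 2 ^ n * 2 ^ n by rw [← mul_pow]; norm_num]
      rw [div_div, div_eq_div_iff (by positivity) (by positivity)]
      rw [show (2 : ℝ) ^ n = 2 ^ t * 2 ^ d by rw [← pow_add, hd]]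
      ring
    rw [h7, div_mul_eq_mul_div, div_lt_iff₀ (by positivity)]
    linarith

/-! ### The range `t ≥ n/2 + sqrt (n log n)` -/

lemma half_exp_le (l : ℝ) : (1 + Real.exp l) / 2 ≤ Real.exp (l / 2 + l ^ 2 / 8) := by
  have h1 := Real.cosh_le_exp_half_sq (l / 2)
  have h2 : (1 + Real.exp l) / 2 = Real.exp (l / 2) * Real.cosh (l / 2) := by
    rw [Real.cosh_eq, mul_div_assoc', mul_add, ← Real.exp_add, ← Real.exp_add]
    rw [show l / 2 + l / 2 = l by ring, show l / 2 + -(l / 2) = 0 by ring, Real.exp_zero]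
    ring
  rw [h2, Real.exp_add]
  apply mul_le_mul_of_nonneg_left _ (Real.exp_pos _).le
  refine h1.trans (le_of_eq ?_)
  congr 1
  ring

lemma tailSum_le_exp (n t : ℕ) (l : ℝ) (hl : 0 ≤ l) :
    tailSum n t ≤ n * Real.exp (n * (l / 2 + l ^ 2 / 8) - l * t) := by
  unfold tailSum
  have h : ∀ m ∈ Finset.range n, (Bt m (t + 1) : ℝ) / 2 ^ m
      ≤ Real.exp (n * (l / 2 + l ^ 2 / 8) - l * t) := by
    intro m hm
    have hm' : (m : ℝ) ≤ n := by exact_mod_cast (Finset.mem_range.1 hm).le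
    have h1 := Bt_chernoff (Real.exp l) (Real.one_le_exp hl) m (t + 1)
    have h2 : ((1 + Real.exp l) / 2) ^ m ≤ Real.exp (l / 2 + l ^ 2 / 8) ^ m :=
      pow_le_pow_left₀ (by positivity) (half_exp_le l) m
    rw [← Real.exp_nat_mul] at h1 h2
    have h3 : (0 : ℝ) < Real.exp (((t + 1 : ℕ) : ℝ) * l) := Real.exp_pos _
    have h4 : (Bt m (t + 1) : ℝ) / 2 ^ m
        ≤ ((1 + Real.exp l) / 2) ^ m / Real.exp (((t + 1 : ℕ) : ℝ) * l) := by
      rw [div_pow, div_div, div_le_div_iff₀ (by positivity) (by positivity)]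
      have h5 : (0 : ℝ) < 2 ^ m := by positivity
      nlinarith
    refine h4.trans ?_
    rw [div_le_iff₀ h3, ← Real.exp_add]
    refine h2.trans (Real.exp_le_exp.2 ?_)
    push_cast
    have h6 : (m : ℝ) * (l / 2 + l ^ 2 / 8) ≤ n * (l / 2 + l ^ 2 / 8) :=
      mul_le_mul_of_nonneg_right hm' (by positivity)
    nlinarith
  calc ∑ m ∈ Finset.range n, (Bt m (t + 1) : ℝ) / 2 ^ m
      ≤ ∑ m ∈ Finset.range n, Real.exp (n * (l / 2 + l ^ 2 / 8) - l * t) :=
        Finset.sum_le_sum h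
    _ = _ := by rw [Finset.sum_const, Finset.card_range, nsmul_eq_mul]

lemma range_half (n t : ℕ) (h1 : (n : ℝ) / 2 + Real.sqrt (n * Real.log n) ≤ t)
    (h2 : t + 4 ≤ n) :
    tailSum n t < ((n : ℝ) - t) * ((n : ℝ) - t - 1) / (2 * (n * ((n : ℝ) - 1))) := by
  rcases Nat.lt_or_ge (3 * t) (2 * n) with h3 | h3
  swap
  · exact range_two_thirds n t h3 h2
  have hn4 : (4 : ℝ) ≤ n := by exact_mod_cast (by omega : 4 ≤ n)
  have hnpos : (0 : ℝ) < n := by linarith
  have h3' : (3 : ℝ) * t + 1 ≤ 2 * n := by exact_mod_cast h3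
  have hL : Real.log 4 ≤ Real.log n := Real.log_le_log (by norm_num) hn4
  have hL4 : (1.38 : ℝ) < Real.log 4 := by
    rw [show (4 : ℝ) = 2 ^ 2 by norm_num, Real.log_pow]
    have := Real.log_two_gt_d9
    push_cast
    linarith
  set L := Real.log n with hLdef
  have hLpos : 0 < L := by linarith
  set δ := Real.sqrt (n * L) with hδ
  have hδ0 : 0 ≤ δ := Real.sqrt_nonneg _
  have hδ2 : δ ^ 2 = n * L := Real.sq_sqrt (by positivity)
  -- n is large
  have hn19 : (20 : ℝ) ≤ n := by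
    have h4 : δ ≤ n / 6 := by linarith
    have h5 : δ ^ 2 ≤ (n / 6) ^ 2 := pow_le_pow_left₀ hδ0 h4 2
    rw [hδ2] at h5
    have h6 : n * L ≤ n * (n / 36) := by nlinarith
    have h7 : L ≤ n / 36 := le_of_mul_le_mul_left h6 hnpos
    linarith
  have h8 := tailSum_le_exp n t (4 * δ / n) (by positivity)
  have h9 : (n : ℝ) * (4 * δ / n / 2 + (4 * δ / n) ^ 2 / 8) - 4 * δ / n * t ≤ -(2 * L) := by
    have h10 : 4 * δ / n * (n / 2 + δ) ≤ 4 * δ / n * t :=
      mul_le_mul_of_nonneg_left h1 (by positivity)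
    have h11 : (n : ℝ) * (4 * δ / n / 2 + (4 * δ / n) ^ 2 / 8) = 2 * δ + 2 * (δ ^ 2 / n) := by
      field_simp
      ring
    have h12 : 4 * δ / n * (n / 2 + δ) = 2 * δ + 4 * (δ ^ 2 / n) := by
      field_simp
      ring
    have h13 : δ ^ 2 / n = L := by
      rw [hδ2]
      field_simp
    rw [h11, h13]
    rw [h12, h13] at h10
    linarith
  have h14 : Real.exp (-(2 * L)) = 1 / (n : ℝ) ^ 2 := by
    rw [Real.exp_neg, show 2 * L = L + L by ring, Real.exp_add, hLdef, Real.exp_log hnpos]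
    rw [one_div, sq]
  have h15 : tailSum n t ≤ 1 / n := by
    refine h8.trans ?_
    calc (n : ℝ) * Real.exp ((n : ℝ) * (4 * δ / n / 2 + (4 * δ / n) ^ 2 / 8) - 4 * δ / n * t)
        ≤ n * Real.exp (-(2 * L)) :=
          mul_le_mul_of_nonneg_left (Real.exp_le_exp.2 h9) hnpos.le
      _ = 1 / n := by
          rw [h14]
          field_simp
  refine lt_of_le_of_lt h15 ?_
  have h16 : (0 : ℝ) < 2 * (n * ((n : ℝ) - 1)) := by
    have : (0 : ℝ) < (n : ℝ) - 1 := by linarith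
    positivity
  rw [div_lt_div_iff₀ hnpos h16]
  have h17 : ((n : ℝ) + 1) / 3 ≤ (n : ℝ) - t := by linarith
  have h18 : ((n : ℝ) - 2) / 3 ≤ (n : ℝ) - t - 1 := by linarith
  have h19 : ((n : ℝ) + 1) / 3 * (((n : ℝ) - 2) / 3) ≤ ((n : ℝ) - t) * ((n : ℝ) - t - 1) :=
    mul_le_mul h17 h18 (by linarith) (by linarith)
  have h20 : 2 * ((n : ℝ) - 1) < ((n : ℝ) + 1) / 3 * (((n : ℝ) - 2) / 3) := by nlinarith
  nlinarith

end Pool.Agent.H19.StackSort
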