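import Mathlib
import Pool.Agent.H19.StackSort.Count

set_option autoImplicit false

open scoped Nat

namespace Pool.Agent.H19.StackSort

lemma perm_one_n (n : ℕ) (hn : 2 ≤ n) :
    (1 :: n :: List.range' 2 (n - 2)).Perm (List.range' 1 n) := by
  obtain ⟨k, rfl⟩ : ∃ k, n = k + 2 := ⟨n - 2, by omega⟩
  rw [show k + 2 - 2 = k by omega, show k + 2 = (k + 1) + 1 by ring, List.range'_succ]
  apply List.Perm.cons
  have h : List.range' (1 + 1) (k + 1) = List.range' 2 k ++ [k + 1 + 1] := by
    rw [List.range'_1_concat]
    congr 2
    ring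
  rw [h]
  exact (List.perm_append_singleton _ _).symm

/-- Inserting the letter `1` after the maximum at position `≥ t`. -/
lemma sum_insert_one (n t : ℕ) (A B : List ℕ) (F : List ℕ → ℕ)
    (hF : ∀ w : List ℕ, w.Perm (List.range' 1 n) → stackSort^[t] w ≠ List.range' 1 n → F w = 1)
    (hp : (1 :: (A ++ n :: B)).Perm (List.range' 1 n)) (hA : t ≤ A.length) :
    B.length + 1 ≤ ((List.permutations'Aux 1 (A ++ n :: B)).map F).sum := by
  rw [permAux_append, List.map_append, List.sum_append, List.map_map, List.map_map]
  have hnd : (1 :: (A ++ n :: B)).Nodup :=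
    hp.nodup_iff.2 (List.nodup_range' (s := 1) (n := n))
  have h2 : ∀ B' ∈ List.permutations'Aux 1 B, (F ∘ fun B' => A ++ n :: B') B' = 1 := by
    intro B' hB'
    have hp' : B'.Perm (1 :: B) := by
      have : B' ∈ List.permutations' (1 :: B) := by
        rw [List.permutations', List.mem_flatMap]
        exact ⟨B, List.mem_permutations'.2 (List.Perm.refl _), hB'⟩
      exact List.mem_permutations'.1 this
    have hpw : (A ++ n :: B').Perm (1 :: (A ++ n :: B)) := by
      have e1 : (A ++ n :: B').Perm (A ++ n :: (1 :: B)) :=
        List.Perm.append_left A (List.Perm.cons n hp')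
      have e2 : (A ++ n :: 1 :: B).Perm (A ++ 1 :: n :: B) :=
        List.Perm.append_left A (List.Perm.swap 1 n B)
      exact (e1.trans e2).trans List.perm_middle
    have hndw : (A ++ n :: B').Nodup := hpw.nodup_iff.2 hnd
    apply hF _ (hpw.trans hp)
    apply unsorted_of_lateMax n t A.length hA _ hndw
    refine ⟨A, n, B', rfl, rfl, ?_, hp'.mem_iff.2 (by simp)⟩
    intro x hx
    have h3 : x ∈ List.range' 1 n := hp.mem_iff.1 (by simp [hx])
    rw [List.mem_range'_1] at h3
    have h4 : x ≠ n := by
      intro h
      exact (List.nodup_append.1 hndw).2.2 x hx n (by simp) h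
    omega
  rw [List.map_congr_left h2]
  simp only [List.map_const', List.sum_replicate, List.length_permutations'Aux, smul_eq_mul,
    mul_one]
  omega

lemma sum_tri (K : ℕ) : ∑ i ∈ Finset.range K, (K - i) = (K + 1).choose 2 := by
  induction K with
  | zero => simp
  | succ K ih =>
    rw [Finset.sum_range_succ']
    have h : ∀ i ∈ Finset.range K, K + 1 - (i + 1) = K - i := fun i _ => by omega
    rw [Finset.sum_congr rfl h, ih, Nat.choose_succ_succ' (K + 1) 1]
    simp
    ring

lemma card_unsorted_S (n t : ℕ) (ht : t + 2 ≤ n) :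
    (n - 2)! * (n - t).choose 2
      ≤ ((Pn n).filter (fun w => stackSort^[t] w ≠ List.range' 1 n)).card := by
  classical
  have hn : 2 ≤ n := by omega
  set L := List.permutations' (1 :: n :: List.range' 2 (n - 2)) with hL
  have hLnd : L.Nodup := by
    rw [hL, ← (List.permutations_perm_permutations' _).nodup_iff]
    apply List.nodup_permutations
    exact (perm_one_n n hn).nodup_iff.2 (List.nodup_range' (s := 1) (n := n))
  have hPn : Pn n = L.toFinset := by
    ext w
    rw [mem_Pn, hL, List.mem_toFinset, List.mem_permutations']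
    exact ⟨fun h => h.trans (perm_one_n n hn).symm, fun h => h.trans (perm_one_n n hn)⟩
  obtain ⟨F, hF⟩ : ∃ F : List ℕ → ℕ, F = fun w =>
      if stackSort^[t] w ≠ List.range' 1 n then 1 else 0 := ⟨_, rfl⟩
  have hcard : ((Pn n).filter (fun w => stackSort^[t] w ≠ List.range' 1 n)).card
      = (L.map F).sum := by
    rw [Finset.card_filter, hPn, List.sum_toFinset _ hLnd, hF]
  rw [hcard, hL, sum_permutations_cons, sum_permutations_cons]
  have hF1 : ∀ w : List ℕ, w.Perm (List.range' 1 n) → stackSort^[t] w ≠ List.range' 1 n →
      F w = 1 := by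
    intro w _ h
    rw [hF]
    simp only
    rw [if_pos h]
  have hkey : ∀ v ∈ List.permutations' (List.range' 2 (n - 2)), (n - t).choose 2
      ≤ ((List.permutations'Aux n v).map (fun u => ((List.permutations'Aux 1 u).map F).sum)).sum := by
    intro v hv
    have hp : v.Perm (List.range' 2 (n - 2)) := List.mem_permutations'.1 hv
    have hlen : v.length = n - 2 := by rw [hp.length_eq]; simp
    rw [sum_permAux, hlen]
    have hsplit : n - 2 + 1 = t + (n - 1 - t) := by omega
    rw [hsplit, Finset.sum_range_add]
    refine le_trans ?_ (Nat.le_add_left _ _)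
    have htri : (n - t).choose 2 = ∑ i ∈ Finset.range (n - 1 - t), (n - 1 - t - i) := by
      rw [sum_tri]
      congr 1
      omega
    rw [htri]
    apply Finset.sum_le_sum
    intro i hi
    have hi' := Finset.mem_range.1 hi
    have hp2 : (1 :: (v.take (t + i) ++ n :: v.drop (t + i))).Perm (List.range' 1 n) := by
      refine List.Perm.trans ?_ (perm_one_n n hn)
      apply List.Perm.cons
      refine List.perm_middle.trans ?_
      apply List.Perm.cons
      rw [List.take_append_drop]
      exact hp
    have h := sum_insert_one n t (v.take (t + i)) (v.drop (t + i)) F hF1 hp2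
      (by rw [List.length_take]; omega)
    refine le_trans ?_ h
    rw [List.length_drop]
    omega
  calc (n - 2)! * (n - t).choose 2
      = ((List.permutations' (List.range' 2 (n - 2))).map (fun _ => (n - t).choose 2)).sum := by
        simp only [List.map_const', List.sum_replicate, smul_eq_mul, length_permutations'_range]
    _ ≤ _ := List.sum_le_sum hkey

end Pool.Agent.H19.StackSort
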