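import Mathlib
import Pool.Agent.H19.StackSort.Count

set_option autoImplicit false

open scoped Nat

namespace Pool.Agent.H19.StackSort

lemma greedy (s : List Bool) : ∀ (b : Bool) (r : ℕ), (alt b r).Sublist s →
    (s.foldl step (b, r)).2 = 0 := by
  induction s with
  | nil =>
    intro b r h
    rcases r with _ | r
    · rfl
    · simp [alt] at h
  | cons x s ih =>
    intro b r h
    rcases r with _ | r
    · have h1 : step (b, 0) x = (b, 0) := rfl
      rw [List.foldl_cons, h1]
      exact ih b 0 (by simp [alt])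
    · rw [alt] at h
      by_cases hx : x = b
      · have h1 : step (b, r + 1) x = (!b, r) := by simp [step, hx]
        rw [List.foldl_cons, h1]
        apply ih
        rw [hx] at h
        exact List.cons_sublist_cons.1 h
      · have h1 : step (b, r + 1) x = (b, r + 1) := by simp [step, hx]
        rw [List.foldl_cons, h1]
        apply ih
        rw [alt]
        rcases h with _ | ⟨_, h⟩ | _
        · assumption
        · exact absurd rfl hx

lemma lows_pairwise (z : ℕ) : ∀ k, k ≤ z - 1 → (lows z k).Pairwise (· > ·) := by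
  intro k hk
  unfold lows
  rw [List.pairwise_map]
  have h := List.pairwise_lt_range (n := k)
  rw [List.pairwise_iff_getElem] at h ⊢
  intro i j hi hj hij
  simp only [List.getElem_range, List.length_range] at hi hj ⊢
  omega

lemma mem_lows (z x : ℕ) (hx : 1 ≤ x) (hxz : x < z) : x ∈ lows z (z - 1) := by
  unfold lows
  rw [List.mem_map]
  exact ⟨z - 1 - x, List.mem_range.2 (by omega), by omega⟩

lemma st_of_zig (n J z : ℕ) (w : List ℕ) (hw : w.Perm (List.range' 1 n)) (h : Zig w z J) :
    (st J w z (z - 1)).2 = 0 := by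
  obtain ⟨vs, hs, hmem, hside⟩ := h
  rw [List.pairwise_cons] at hs
  obtain ⟨hz, hvs⟩ := hs
  have hsub : vs.Sublist (lows z (z - 1)) := by
    apply List.sublist_of_subperm_of_pairwise (r := (· > ·)) _ hvs
      (lows_pairwise z (z - 1) le_rfl)
    apply List.subperm_of_subset
    · exact hvs.imp (fun h => ne_of_gt h)
    · intro x hx
      have h1 := hw.mem_iff.1 (hmem x hx)
      rw [List.mem_range'_1] at h1
      exact mem_lows z x h1.1 (hz x hx)
  unfold st
  apply greedy
  rw [← hside]
  exact hsub.map _

/-- The number of words not sorted by `t` passes of `T`. -/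
lemma card_unsorted_T (n t : ℕ) :
    (((Pn n).filter (fun w => revstackSort^[t] w ≠ List.range' 1 n)).card : ℝ)
      ≤ (n ! : ℝ) * ∑ m ∈ Finset.range n, (Bt m (t + 1) : ℝ) / 2 ^ m := by
  classical
  have h1 : (Pn n).filter (fun w => revstackSort^[t] w ≠ List.range' 1 n)
      ⊆ (Finset.range n).biUnion (fun m =>
        (Pn n).filter (fun w => (st (t + 1) w (m + 1) (m + 1 - 1)).2 = 0)) := by
    intro w hw
    rw [Finset.mem_filter] at hw
    obtain ⟨hw1, hw2⟩ := hw
    have hp := (mem_Pn n w).1 hw1
    obtain ⟨z, hz, hzig⟩ := zig_of_unsorted n t w hp hw2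
    have hz' := hp.mem_iff.1 hz
    rw [List.mem_range'_1] at hz'
    rw [Finset.mem_biUnion]
    refine ⟨z - 1, Finset.mem_range.2 (by omega), ?_⟩
    rw [Finset.mem_filter]
    refine ⟨hw1, ?_⟩
    rw [show z - 1 + 1 = z by omega]
    exact st_of_zig n (t + 1) z w hp hzig
  calc (((Pn n).filter (fun w => revstackSort^[t] w ≠ List.range' 1 n)).card : ℝ)
      ≤ (((Finset.range n).biUnion (fun m =>
        (Pn n).filter (fun w => (st (t + 1) w (m + 1) (m + 1 - 1)).2 = 0))).card : ℝ) := by
        exact_mod_cast Finset.card_le_card h1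
    _ ≤ ((∑ m ∈ Finset.range n,
        ((Pn n).filter (fun w => (st (t + 1) w (m + 1) (m + 1 - 1)).2 = 0)).card : ℕ) : ℝ) := by
        exact_mod_cast Finset.card_biUnion_le
    _ = ∑ m ∈ Finset.range n,
        (((Pn n).filter (fun w => (st (t + 1) w (m + 1) (m + 1 - 1)).2 = 0)).card : ℝ) := by
        push_cast; rfl
    _ ≤ ∑ m ∈ Finset.range n, (n ! : ℝ) * ((Bt m (t + 1) : ℝ) / 2 ^ m) := by
        apply Finset.sum_le_sum
        intro m hm
        have hm' := Finset.mem_range.1 hm
        have := card_success (t + 1) (m + 1) n (by omega) (by omega)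
        simpa using this
    _ = _ := by rw [Finset.mul_sum]

end Pool.Agent.H19.StackSort
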